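import Pool.Agent.H84.SM.Targets
import Pool.Agent.H27.LV.Curve
import Pool.Agent.H58.LV.DFI

/-!
# GRU and SCT: the fundamental inequality
-/

set_option autoImplicit false

namespace Pool.Agent.H16.SM

open MvPolynomial SC Pool.Agent.H27.LV Pool.Agent.H84.SM

/-- reduction of the value of a polynomial with constant coefficients -/
theorem ge_aeval {k K : Type} [Field k] [Field K] [Algebra k K] (v : DV k K) (x : Fin 3 → K)
    (c : Fin 3 → k) (hx : ∀ i, 0 ≤ v.ord (x i)) (hc : ∀ i, ge v 1 (x i - algebraMap k K (c i)))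
    (P : MvPolynomial (Fin 3) k) : ge v 1 (aeval x P - algebraMap k K (eval c P)) := by
  induction P using MvPolynomial.induction_on with
  | C a =>
    rw [algHom_C, eval_C, sub_self]
    exact ge_zero v 1
  | add p q hp hq =>
    rw [map_add, map_add, map_add]
    have e : aeval x p + aeval x q - (algebraMap k K (eval c p) + algebraMap k K (eval c q)) =
      (aeval x p - algebraMap k K (eval c p)) + (aeval x q - algebraMap k K (eval c q)) := by ring
    rw [e]
    exact hp.add hq
  | mul_X p i hp =>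
    rw [map_mul, map_mul, map_mul, aeval_X, eval_X]
    have e : aeval x p * x i - algebraMap k K (eval c p) * algebraMap k K (c i) =
      (aeval x p - algebraMap k K (eval c p)) * x i +
        algebraMap k K (eval c p) * (x i - algebraMap k K (c i)) := by ring
    rw [e]
    refine ge.add ?_ ?_
    · have := hp.mul (Or.inr (hx i) : ge v 0 (x i))
      rwa [add_zero] at this
    · have := (ge_const v (eval c p)).mul (hc i)
      rwa [zero_add] at this

theorem pf_GRU : T_GRU := by
  intro k K _ _ _ _ _ G d _ hG v x hrat hx hne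
  choose c hc using fun i => hrat (x i) (hx i)
  obtain ⟨i, hi, hi0⟩ := hne
  have hc0 : c ≠ 0 := by
    intro h
    have h1 := hc i
    rw [h, Pi.zero_apply, map_zero, sub_zero] at h1
    rcases h1 with h1 | h1
    · exact hi h1
    · omega
  obtain ⟨l, hl⟩ : ∃ l, eval c (pderiv l G) ≠ 0 := by
    by_contra hcon
    push Not at hcon
    exact hc0 (hG.2 c hcon)
  refine ⟨l, ?_⟩
  have h1 := ge_aeval v x c hx hc (pderiv l G)
  have e : gr G x l = algebraMap k K (eval c (pderiv l G)) +
      (aeval x (pderiv l G) - algebraMap k K (eval c (pderiv l G))) := by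
    unfold gr; ring
  have h2 := v.ord_add_eq_left (x := algebraMap k K (eval c (pderiv l G)))
    (y := aeval x (pderiv l G) - algebraMap k K (eval c (pderiv l G)))
    (by rw [Ne, map_eq_zero]; exact hl) (fun h => by
      rw [v.ord_base]
      have := h1.resolve_left h
      omega)
  rw [← e, v.ord_base] at h2
  exact h2

theorem aeval_hom {k K : Type} [Field k] [CommRing K] [Algebra k K] {G : MvPolynomial (Fin 3) k}
    {d : ℕ} (hG : G.IsHomogeneous d) (x : Fin 3 → K) (c : K) :
    aeval (fun i => c * x i) G = c ^ d * aeval x G := by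
  rw [aeval_def, aeval_def, eval₂_eq', eval₂_eq', Finset.mul_sum]
  refine Finset.sum_congr rfl fun m hm => ?_
  have h1 : ∑ i, m i = d := by
    have := hG (mem_support_iff.1 hm)
    rw [Finsupp.weight_apply, Finsupp.sum_fintype _ _ (by simp)] at this
    simpa using this
  have h2 : ∏ i, (c * x i) ^ m i = c ^ d * ∏ i, x i ^ m i := by
    rw [← h1, ← Finset.prod_pow_eq_pow_sum, ← Finset.prod_mul_distrib]
    exact Finset.prod_congr rfl fun i _ => mul_pow _ _ _
  rw [h2]
  ring

theorem pf_SCT (hINT : T_INT) (hGRU : T_GRU) (hSCC : T_SCC) : T_SCT := by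
  classical
  intro k _ _ _ G d hd hG hirr K _ _ _ htr D hD x S hC n t M N hsec hne
  obtain ⟨hInv, ⟨e, he, hB⟩, hdiv⟩ := hsec
  have hsec : IsSec G d n (-(t : ℤ)) M N := ⟨hInv, ⟨e, he, hB⟩, hdiv⟩
  obtain ⟨j0, hj0⟩ := hC.one
  have hG0 := hC.ne
  set f : K := evc D x N / aeval x G ^ M with hf
  have hf0 : f ≠ 0 := div_ne_zero hne (pow_ne_zero _ hG0)
  have hA0 : aeval x G ^ M ≠ 0 := pow_ne_zero _ hG0
  -- the local estimate
  have hloc : ∀ v : DV k K, (t : ℤ) * poleOrder v x + n * ordD v D -
      n * (if v ∈ S then 1 else 0) ≤ v.ord f := by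
    intro v
    have hpl : ∀ i, -(poleOrder v x : ℤ) ≤ v.ord (x i) := by
      intro i
      have h1 : (-(v.ord (x i))).toNat ≤ poleOrder v x :=
        Finset.le_sup (f := fun i => (-(v.ord (x i))).toNat) (Finset.mem_univ i)
      omega
    obtain ⟨j, hj, hjp⟩ : ∃ j, x j ≠ 0 ∧ v.ord (x j) = -(poleOrder v x : ℤ) := by
      by_cases hp : poleOrder v x = 0
      · refine ⟨j0, by rw [hj0]; exact one_ne_zero, ?_⟩
        rw [hj0, v.ord_one, hp]
        simp
      · obtain ⟨i, -, hi⟩ := Finset.exists_mem_eq_sup (Finset.univ : Finset (Fin 3))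
          Finset.univ_nonempty (fun i => (-(v.ord (x i))).toNat)
        have hi' : poleOrder v x = (-(v.ord (x i))).toNat := hi
        refine ⟨i, ?_, by omega⟩
        intro h0
        rw [h0, v.ord_zero] at hi'
        exact hp (by rw [hi']; rfl)
    set ε : ℤ := if v ∈ S then 1 else 0 with hε
    have hε0 : 0 ≤ ε := by rw [hε]; split_ifs <;> norm_num
    obtain ⟨-, ⟨hd1, hd2⟩, -⟩ := dor k K htr D hD v
    set μ : K := v.unif ^ (ε - ordD v D) with hμ
    have hμ0 : μ ≠ 0 := v.unif_zpow_ne_zero _
    have hμo : v.ord μ = ε - ordD v D := v.ord_unif_zpow _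
    have hμg : ge v (ε - ordD v D) μ := Or.inr hμo.ge
    have hθ : ∀ z : K, (μ • D) z = μ * D z := fun z => rfl
    have hθ1 : ∀ z : K, 0 ≤ v.ord z → ge v 0 ((μ • D) z) := by
      intro z hz
      rw [hθ]
      exact (hμg.mul (hd1 z hz)).mono (by omega)
    set c : K := (x j)⁻¹ with hc
    have hc0 : c ≠ 0 := inv_ne_zero hj
    have hco : v.ord c = poleOrder v x := by
      have h1 := v.ord_mul' hj hc0
      rw [hc, mul_inv_cancel₀ hj, v.ord_one, hjp] at h1
      rw [hc]
      omega
    have hxt : ∀ i, 0 ≤ v.ord (c * x i) := by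
      intro i
      by_cases h0 : x i = 0
      · rw [h0, mul_zero, v.ord_zero]
      · rw [v.ord_mul' hc0 h0, hco]
        have := hpl i
        omega
    have hxj : c * x j = 1 := by rw [hc]; exact inv_mul_cancel₀ hj
    have hGt : aeval (fun i => c * x i) G = c ^ d * aeval x G := aeval_hom hG.1 x c
    have hGt0 : aeval (fun i => c * x i) G ≠ 0 := by
      rw [hGt]; exact mul_ne_zero (pow_ne_zero _ hc0) hG0
    obtain ⟨l, hl⟩ := hGRU k K G d (by omega) hG v (fun i => c * x i) (rat k K htr v).2 hxt
      ⟨j, by show c * x j ≠ 0; rw [hxj]; exact one_ne_zero, by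
        show v.ord (c * x j) = 0
        rw [hxj, v.ord_one]⟩
    have hlog : ge v 0 ((μ • D) (aeval (fun i => c * x i) G) / aeval (fun i => c * x i) G) := by
      by_cases hv : v ∈ S
      · have h1 := hd2 _ hGt0
        have h2 := hμg.mul h1
        have h3 : ε = 1 := by rw [hε, if_pos hv]
        have h4 : ge v (-(v.ord (aeval (fun i => c * x i) G)))
            (aeval (fun i => c * x i) G)⁻¹ := by
          right
          have h5 := v.ord_mul' hGt0 (inv_ne_zero hGt0)
          rw [mul_inv_cancel₀ hGt0, v.ord_one] at h5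
          omega
        rw [div_eq_mul_inv, hθ]
        exact (h2.mul h4).mono (by omega)
      · have h1 : v.ord (aeval (fun i => c * x i) G) = 0 := by
          rw [hGt, v.ord_mul' (pow_ne_zero _ hc0) hG0, v.ord_pow, hco, hC.off v hv]
          ring
        have h2 := hθ1 _ h1.ge
        have h4 : ge v 0 (aeval (fun i => c * x i) G)⁻¹ := by
          right
          have h5 := v.ord_mul' hGt0 (inv_ne_zero hGt0)
          rw [mul_inv_cancel₀ hGt0, v.ord_one] at h5
          omega
        rw [div_eq_mul_inv]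
        exact (h2.mul h4).mono (by omega)
    have hint := hINT k K G d hd hG hirr v (μ • D) (fun i => c * x i) hθ1 hxt ⟨l, hl⟩ hGt0 hlog
      n M (-(t : ℤ)) N hsec
    rw [hSCC k K D x c μ e n N hInv hB, hGt] at hint
    have hE : c ^ (e + n) * μ ^ n * evc D x N / (c ^ d * aeval x G) ^ M =
        c ^ (e + n) * μ ^ n / (c ^ d) ^ M * f := by
      rw [hf, mul_pow]
      have := pow_ne_zero M (pow_ne_zero d hc0)
      field_simp
    rw [hE] at hint
    have hcn : c ^ (e + n) * μ ^ n ≠ 0 := mul_ne_zero (pow_ne_zero _ hc0) (pow_ne_zero _ hμ0)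
    have hcd : (c ^ d) ^ M ≠ 0 := pow_ne_zero _ (pow_ne_zero _ hc0)
    have hint' := hint.resolve_left (mul_ne_zero (div_ne_zero hcn hcd) hf0)
    rw [v.ord_mul' (div_ne_zero hcn hcd) hf0, v.ord_div hcn hcd,
      v.ord_mul' (pow_ne_zero _ hc0) (pow_ne_zero _ hμ0), v.ord_pow, v.ord_pow, v.ord_pow,
      v.ord_pow, hco, hμo] at hint'
    have he' : (e : ℤ) + n - M * d = -t := by rw [he]; ring
    have hfin : ((e + n : ℕ) : ℤ) * (poleOrder v x : ℤ) - M * (d * (poleOrder v x : ℤ)) =
        -(t : ℤ) * poleOrder v x := by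
      rw [← he']
      push_cast
      ring
    linarith
  -- summation over all places
  obtain ⟨hfs, hfsum⟩ := pfm k K htr f
  have hps := pfi k K htr (Fin 3) x
  have hds := Pool.Agent.H58.LV.dfi dor pfm rat k K htr D hD
  let T : Finset (DV k K) := hfs.toFinset ∪ hps.toFinset ∪ hds.toFinset ∪ S
  have e1 : ∑ᶠ v : DV k K, v.ord f = ∑ v ∈ T, v.ord f := by
    refine finsum_eq_sum_of_support_subset _ fun v hv => ?_
    have : v ∈ hfs.toFinset := hfs.mem_toFinset.2 hv
    simp only [T, Finset.coe_union, Set.mem_union, Finset.mem_coe]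
    exact Or.inl (Or.inl (Or.inl this))
  have e2 : (deg k x : ℤ) = ∑ v ∈ T, (poleOrder v x : ℤ) := by
    have h1 : deg k x = ∑ v ∈ T, poleOrder v x := by
      unfold deg
      refine finsum_eq_sum_of_support_subset _ fun v hv => ?_
      have : v ∈ hps.toFinset := hps.mem_toFinset.2 hv
      simp only [T, Finset.coe_union, Set.mem_union, Finset.mem_coe]
      exact Or.inl (Or.inl (Or.inr this))
    rw [h1]
    push_cast
    rfl
  have e3 : canDeg D = - ∑ v ∈ T, ordD v D := by
    unfold canDeg
    congr 1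
    refine finsum_eq_sum_of_support_subset _ fun v hv => ?_
    have : v ∈ hds.toFinset := hds.mem_toFinset.2 hv
    simp only [T, Finset.coe_union, Set.mem_union, Finset.mem_coe]
    exact Or.inl (Or.inr this)
  have e4 : (S.card : ℤ) = ∑ v ∈ T, (if v ∈ S then (1 : ℤ) else 0) := by
    rw [Finset.sum_ite_mem, Finset.inter_eq_right.2 Finset.subset_union_right]
    simp
  have e5 := Finset.sum_le_sum fun v (_ : v ∈ T) => hloc v
  rw [← e1, hfsum, Finset.sum_sub_distrib, Finset.sum_add_distrib, ← Finset.mul_sum,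
    ← Finset.mul_sum, ← Finset.mul_sum, ← e2, ← e4] at e5
  rw [e3]
  have e6 : (n : ℤ) * (-∑ v ∈ T, ordD v D + S.card) =
      n * S.card - n * ∑ v ∈ T, ordD v D := by ring
  rw [e6]
  linarith

end Pool.Agent.H16.SM
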