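import Pool.Agent.H84.SM.Targets2

/-!
# CAN: the genus is not negative
-/

set_option autoImplicit false

namespace Pool.Agent.H16.SM

open MvPolynomial SC Pool.Agent.H27.LV Pool.Agent.H84.SM

theorem pf_CAN (hRIE : T_RIE) (hWRO : T_WRO) : T_CAN := by
  intro k K _ _ _ _ _ _ htr D hD
  by_contra hcon
  push Not at hcon
  obtain ⟨a, c, hfin, hpos, hV⟩ := hRIE k K htr
  set A : ℕ := ∑ᶠ v, a v with hA
  obtain ⟨V, hVf, hVp, hVd⟩ := hV (3 * c + 4)
  set m : ℕ := Module.finrank k V with hm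
  have hfin' : {v : DV k K | (3 * c + 4) * a v ≠ 0}.Finite := by
    refine hfin.subset fun v hv h => hv ?_
    rw [h, mul_zero]
  have h1 := hWRO k K htr D hD (fun v => (3 * c + 4) * a v) hfin' V hVf (by
    intro f hf v
    have := hVp f hf v
    push_cast at this ⊢
    exact this)
  have h2 : ∑ᶠ v : DV k K, (((3 * c + 4) * a v : ℕ) : ℤ) = ((3 * c + 4 : ℕ) : ℤ) * A := by
    rw [hA]
    have e1 : ∑ᶠ v, a v = ∑ v ∈ hfin.toFinset, a v :=
      finsum_eq_sum_of_support_subset _ fun v hv => by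
        rw [Set.Finite.coe_toFinset]; exact hv
    have e2 : ∑ᶠ v : DV k K, (((3 * c + 4) * a v : ℕ) : ℤ) =
        ∑ v ∈ hfin.toFinset, (((3 * c + 4) * a v : ℕ) : ℤ) :=
      finsum_eq_sum_of_support_subset _ fun v hv => by
        rw [Set.Finite.coe_toFinset]
        intro h
        apply hv
        show (((3 * c + 4) * a v : ℕ) : ℤ) = 0
        rw [h]
        simp
    rw [e1, e2]
    push_cast
    rw [Finset.mul_sum]
  rw [h2, ← hm] at h1
  have hA1 : (1 : ℤ) ≤ A := by exact_mod_cast hpos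
  have hVd' : ((3 * c + 4 : ℕ) : ℤ) * A ≤ m + c := by exact_mod_cast hVd
  obtain ⟨R, hR⟩ : ∃ R : ℤ, R = ((3 * c + 4 : ℕ) : ℤ) * A := ⟨_, rfl⟩
  rw [← hR] at h1 hVd'
  have hR1 : 3 * (c : ℤ) + 4 ≤ R := by
    rw [hR]
    push_cast
    nlinarith
  have hm1 : (1 : ℤ) ≤ m := by
    have : (0 : ℤ) ≤ c := by positivity
    linarith
  have h3 : (m : ℤ) * (m - 1) * canDeg D ≤ (m : ℤ) * (m - 1) * (-3) := by
    refine mul_le_mul_of_nonneg_left (by omega) ?_
    exact mul_nonneg (by linarith) (by linarith)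
  have h4 : 0 ≤ (m : ℤ) * (2 * R - 3 * (m - 1)) := by
    have e : (m : ℤ) * (2 * R - 3 * (m - 1)) = 2 * (m : ℤ) * R + (m : ℤ) * (m - 1) * (-3) := by
      ring
    rw [e]
    linarith
  have h5 : 0 ≤ 2 * R - 3 * ((m : ℤ) - 1) := by
    by_contra hn
    push Not at hn
    have := mul_neg_of_pos_of_neg (by linarith : (0 : ℤ) < m) hn
    linarith
  linarith

end Pool.Agent.H16.SM
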