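import Pool.Agent.H84.SM.Targets2
import Pool.Agent.H62.FR.Setup

/-!
# EXT: extension of places
-/

set_option autoImplicit false

namespace Pool.Agent.H16.SM

open MvPolynomial SC Pool.Agent.H27.LV Pool.Agent.H84.SM IsDedekindDomain

theorem fin_of_trdeg (k K0 K : Type) [Field k] [Field K0] [Algebra k K0] [Field K] [Algebra k K]
    [Algebra K0 K] [IsScalarTower k K0 K] [Algebra.EssFiniteType k K]
    (h0 : Algebra.trdeg k K0 = 1) (h1 : Algebra.trdeg k K = 1) : FiniteDimensional K0 K := by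
  have h2 := trdeg_add_eq k K0 (A := K)
  rw [h0, h1] at h2
  have h3 : Algebra.trdeg K0 K = 0 := by
    have h4 : (Cardinal.lift.{0, 0} (Algebra.trdeg K0 K)) < Cardinal.aleph0 := by
      rw [Cardinal.lift_id]
      exact lt_of_le_of_lt (self_le_add_left _ _) (h2.trans_lt Cardinal.one_lt_aleph0)
    rw [Cardinal.lift_id] at h4
    obtain ⟨n, hn⟩ := Cardinal.lt_aleph0.1 h4
    rw [hn] at h2 ⊢
    have h5 : 1 + n = 1 := by exact_mod_cast h2
    have h6 : n = 0 := by omega
    rw [h6, Nat.cast_zero]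
  have h4 : Algebra.IsAlgebraic K0 K := trdeg_eq_zero_iff.1 h3
  have h5 : Algebra.EssFiniteType K0 K := Algebra.EssFiniteType.of_comp k K0 K
  exact Algebra.finite_of_essFiniteType_of_isAlgebraic

theorem pf_EXT : T_EXT := by
  intro k K0 K _ _ _ _ _ _ _ _ _ ι h0 h1 w
  let _ : Algebra K0 K := ι.toRingHom.toAlgebra
  have ht : IsScalarTower k K0 K := IsScalarTower.of_algebraMap_eq fun c => (ι.commutes c).symm
  have hfd : FiniteDimensional K0 K := fin_of_trdeg k K0 K h0 h1
  obtain ⟨M, hM, hle⟩ : ∃ M : Ideal (Pool.Agent.H62.FR.BB K w), M.IsMaximal ∧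
      Ideal.span {algebraMap w.vs (Pool.Agent.H62.FR.BB K w) (Pool.Agent.H62.FR.tt w)} ≤ M := by
    refine Ideal.exists_le_maximal _ ?_
    intro htop
    rw [Ideal.span_singleton_eq_top] at htop
    obtain ⟨b, hb⟩ := htop.exists_right_inv
    have h2 : IsIntegral w.vs ((w.unif⁻¹ : K0)) := by
      have h3 : IsIntegral w.vs (algebraMap K0 K w.unif⁻¹) := by
        have h4 := congrArg (algebraMap (Pool.Agent.H62.FR.BB K w) K) hb
        rw [map_mul, map_one, Pool.Agent.H62.FR.algebraMap_tt] at h4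
        have h5 : algebraMap K0 K w.unif⁻¹ = algebraMap (Pool.Agent.H62.FR.BB K w) K b := by
          rw [map_inv₀]
          exact inv_eq_of_mul_eq_one_right h4
        rw [h5]
        exact b.2
      exact (isIntegral_algebraMap_iff (algebraMap K0 K).injective).1 h3
    obtain ⟨y, hy⟩ := IsIntegrallyClosed.isIntegral_iff.1 h2
    have h6 : 0 ≤ w.ord (w.unif⁻¹) := by
      rw [← hy]
      exact y.2
    rw [w.ord_inv, w.ord_unif] at h6
    omega
  have hMne : M ≠ ⊥ := by
    intro h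
    rw [h, le_bot_iff, Ideal.span_singleton_eq_bot] at hle
    have h2 := congrArg (algebraMap (Pool.Agent.H62.FR.BB K w) K) hle
    rw [Pool.Agent.H62.FR.algebraMap_tt, map_zero, map_eq_zero] at h2
    exact w.unif_ne_zero h2
  let P : HeightOneSpectrum (Pool.Agent.H62.FR.BB K w) := ⟨M, hM.isPrime, hMne⟩
  obtain ⟨h2, h3⟩ := Pool.Agent.H62.FR.pl_over w P
  exact ⟨Pool.Agent.H62.FR.pl w P, _, h2, h3⟩

end Pool.Agent.H16.SM
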