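import Pool.Agent.H84.SM.Targets2
import Pool.Agent.H16.SM.SCT

/-!
# CEN: centres of places
-/

set_option autoImplicit false

namespace Pool.Agent.H16.SM

open MvPolynomial SC Pool.Agent.H27.LV Pool.Agent.H84.SM

theorem pf_CEN : T_CEN := by
  intro k K _ _ _ _ _ _ htr v x hone
  obtain ⟨j0, hj0⟩ := hone
  constructor
  · have hpl : ∀ i, -(poleOrder v x : ℤ) ≤ v.ord (x i) := by
      intro i
      have h1 : (-(v.ord (x i))).toNat ≤ poleOrder v x :=
        Finset.le_sup (f := fun i => (-(v.ord (x i))).toNat) (Finset.mem_univ i)
      omega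
    obtain ⟨j, hj, hjp⟩ : ∃ j, x j ≠ 0 ∧ v.ord (x j) = -(poleOrder v x : ℤ) := by
      by_cases hp : poleOrder v x = 0
      · refine ⟨j0, by rw [hj0]; exact one_ne_zero, ?_⟩
        rw [hj0, v.ord_one, hp]
        simp
      · obtain ⟨i, -, hi⟩ := Finset.exists_mem_eq_sup (Finset.univ : Finset (Fin 3))
          Finset.univ_nonempty (fun i => (-(v.ord (x i))).toNat)
        have hi' : poleOrder v x = (-(v.ord (x i))).toNat := hi
        refine ⟨i, ?_, by omega⟩
        intro h0
        rw [h0, v.ord_zero] at hi'
        exact hp (by rw [hi']; rfl)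
    set c : K := (x j)⁻¹ with hc
    have hc0 : c ≠ 0 := inv_ne_zero hj
    have hco : v.ord c = poleOrder v x := by
      have h1 := v.ord_mul' hj hc0
      rw [hc, mul_inv_cancel₀ hj, v.ord_one, hjp] at h1
      rw [hc]
      omega
    have hxt : ∀ i, 0 ≤ v.ord (c * x i) := by
      intro i
      by_cases h0 : x i = 0
      · rw [h0, mul_zero, v.ord_zero]
      · rw [v.ord_mul' hc0 h0, hco]
        have := hpl i
        omega
    choose s hs using fun i => (rat k K htr v).2 _ (hxt i)
    refine ⟨s, ?_, c, hc0, hs⟩
    intro h0
    have h1 := hs j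
    rw [h0, Pi.zero_apply, map_zero, sub_zero, hc, inv_mul_cancel₀ hj] at h1
    rcases h1 with h1 | h1
    · exact one_ne_zero h1
    · rw [v.ord_one] at h1
      omega
  · intro s hs z hz hsz
    have hint : ∀ i, ge v 0 (z * x i) := by
      intro i
      have e : z * x i = (z * x i - algebraMap k K (s i)) + algebraMap k K (s i) := by ring
      rw [e]
      exact ((hsz i).mono (by norm_num)).add (ge_const v _)
    have hint' : ∀ i, 0 ≤ v.ord (z * x i) := by
      intro i
      rcases hint i with h | h
      · rw [h, v.ord_zero]
      · exact h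
    obtain ⟨i0, hi0⟩ : ∃ i, s i ≠ 0 := by
      by_contra hcon
      push Not at hcon
      exact hs (funext hcon)
    have h1 : z * x i0 ≠ 0 ∧ v.ord (z * x i0) = 0 := by
      have h2 := v.ord_add_eq_left (x := algebraMap k K (s i0))
        (y := z * x i0 - algebraMap k K (s i0)) (by rw [Ne, map_eq_zero]; exact hi0) (fun h => by
          rw [v.ord_base]
          have := (hsz i0).resolve_left h
          omega)
      rw [v.ord_base, add_sub_cancel] at h2
      exact h2
    have hx0 : x i0 ≠ 0 := fun h => h1.1 (by rw [h, mul_zero])
    have h3 : v.ord z = -(v.ord (x i0)) := by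
      have := h1.2
      rw [v.ord_mul' hz hx0] at this
      omega
    have h4 : ∀ i, -(v.ord (x i)) ≤ v.ord z := by
      intro i
      by_cases h : x i = 0
      · have := hint' j0
        rw [hj0, mul_one] at this
        rw [h, v.ord_zero]
        omega
      · have := hint' i
        rw [v.ord_mul' hz h] at this
        omega
    have hz0 : 0 ≤ v.ord z := by
      have := h4 j0
      rw [hj0, v.ord_one] at this
      omega
    have hzp : v.ord z = poleOrder v x := by
      have h5 : (-(v.ord (x i0))).toNat ≤ poleOrder v x :=
        Finset.le_sup (f := fun i => (-(v.ord (x i))).toNat) (Finset.mem_univ i0)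
      have h6 : poleOrder v x ≤ (v.ord z).toNat := by
        refine Finset.sup_le fun i _ => ?_
        have := h4 i
        omega
      omega
    refine ⟨hzp, fun e P hP hP0 => ?_⟩
    have h7 : aeval (fun i => z * x i) P = z ^ e * aeval x P := aeval_hom hP x z
    have h8 : aeval (fun i => z * x i) P ≠ 0 := by
      rw [h7]; exact mul_ne_zero (pow_ne_zero _ hz) hP0
    have h9 : nord v x e P = v.ord (aeval (fun i => z * x i) P) := by
      rw [h7, v.ord_mul' (pow_ne_zero _ hz) hP0, v.ord_pow, hzp]
      unfold nord
      ring
    have h10 := ge_aeval v (fun i => z * x i) s hint' hsz P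
    refine ⟨h9, ?_, ?_, ?_⟩
    · rw [h9]
      have e : aeval (fun i => z * x i) P = (aeval (fun i => z * x i) P -
        algebraMap k K (eval s P)) + algebraMap k K (eval s P) := by ring
      have h11 : ge v 0 (aeval (fun i => z * x i) P) := by
        rw [e]
        exact (h10.mono (by norm_num)).add (ge_const v _)
      exact h11.resolve_left h8
    · intro hne
      rw [h9]
      have h2 := v.ord_add_eq_left (x := algebraMap k K (eval s P))
        (y := aeval (fun i => z * x i) P - algebraMap k K (eval s P))
        (by rw [Ne, map_eq_zero]; exact hne) (fun h => by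
          rw [v.ord_base]
          have := h10.resolve_left h
          omega)
      rw [v.ord_base, add_sub_cancel] at h2
      exact h2.2
    · intro h0
      rw [h9]
      rw [h0, map_zero, sub_zero] at h10
      exact h10.resolve_left h8

end Pool.Agent.H16.SM
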