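import Pool.Agent.H16.SM.VAL

/-!
# JPC: the logarithmic jet of a curve
-/

set_option autoImplicit false

namespace Pool.Agent.H16.SM

open MvPolynomial SC Pool.Agent.H27.LV Pool.Agent.H84.SM

/-- chain rule -/
theorem chain {k K : Type} [Field k] [CommRing K] [Algebra k K] (D : Derivation k K K)
    (x : Fin 3 → K) (P : MvPolynomial (Fin 3) k) :
    D (aeval x P) = ∑ i, aeval x (pderiv i P) * D (x i) := by
  induction P using MvPolynomial.induction_on with
  | C a =>
    rw [algHom_C, Derivation.map_algebraMap]
    simp
  | add p q hp hq =>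
    rw [map_add, map_add, hp, hq, ← Finset.sum_add_distrib]
    refine Finset.sum_congr rfl fun i _ => ?_
    rw [map_add, map_add, add_mul]
  | mul_X p j hp =>
    rw [map_mul, Derivation.leibniz, aeval_X, hp, smul_eq_mul, smul_eq_mul, Finset.mul_sum]
    have h : ∀ i, aeval x (pderiv i (p * X j)) * D (x i) =
        x j * (aeval x (pderiv i p) * D (x i)) + (if i = j then aeval x p * D (x j) else 0) := by
      intro i
      rw [Derivation.leibniz, pderiv_X, smul_eq_mul, smul_eq_mul, map_add, map_mul, map_mul,
        aeval_X]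
      by_cases hij : i = j
      · subst hij
        rw [Pi.single_eq_same, if_pos rfl, map_one]
        ring
      · rw [if_neg hij, Pi.single_eq_of_ne (Ne.symm hij), map_zero]
        ring
    rw [Finset.sum_congr rfl fun i _ => h i, Finset.sum_add_distrib, Finset.sum_ite_eq']
    simp only [Finset.mem_univ, if_true]
    ring

theorem pf_JPC (hSCL : T_SCL) : T_JPC := by
  intro k K _ _ _ _ G d D x hd hG hne
  have : CharZero K := charZero_of_injective_algebraMap (algebraMap k K).injective
  have hd0 : (d : K) ≠ 0 := by
    have : d ≠ 0 := by omega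
    exact_mod_cast this
  have hE := euler hG x
  set l : K := lc G d D x with hl
  have hlm : l * (d * aeval x G) = D (aeval x G) := by
    rw [hl]
    unfold lc
    exact div_mul_cancel₀ _ (mul_ne_zero hd0 hne)
  set q : Fin 3 → K := qc G d D x with hqdef
  have hqi : ∀ i, q i = D (x i) - l * x i := fun i => rfl
  set r : Fin 3 → K := fun i => D (q i) - l * q i with hr
  have hsc : sc G d D x = cr q r := rfl
  -- `∇G · q = 0`
  have h1 : dp (gr G x) q = 0 := by
    have e1 : dp (gr G x) q = D (aeval x G) - l * dp x (gr G x) := by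
      rw [chain D x G]
      unfold dp gr
      rw [Finset.mul_sum, ← Finset.sum_sub_distrib]
      refine Finset.sum_congr rfl fun i _ => ?_
      rw [hqi]
      ring
    rw [e1, hE, hlm, sub_self]
  -- `H(x, q) = 0`
  have h2 : ∑ i, ∑ j, aeval x (pderiv i (pderiv j G)) * x i * q j = 0 := by
    rw [Finset.sum_comm]
    have e1 : ∀ j, ∑ i, aeval x (pderiv i (pderiv j G)) * x i * q j =
        ((d - 1 : ℕ) : K) * (gr G x j * q j) := by
      intro j
      have e2 := euler (hG.pderiv (i := j)) x
      unfold dp gr at e2
      have e3 : ∑ i, aeval x (pderiv i (pderiv j G)) * x i * q j =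
          (∑ i, x i * aeval x (pderiv i (pderiv j G))) * q j := by
        rw [Finset.sum_mul]
        refine Finset.sum_congr rfl fun i _ => ?_
        ring
      rw [e3, e2]
      unfold gr
      ring
    rw [Finset.sum_congr rfl fun j _ => e1 j, ← Finset.mul_sum]
    have e4 : ∑ j, gr G x j * q j = 0 := h1
    rw [e4, mul_zero]
  -- `H(q, q) + ∇G · r = 0`
  have h3 : dp (gr G x) r = - hs G x q := by
    have e1 : D (dp (gr G x) q) = 0 := by rw [h1, map_zero]
    have e2 : D (dp (gr G x) q) = (∑ j, ∑ i, aeval x (pderiv i (pderiv j G)) * D (x i) * q j) +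
        dp (gr G x) (fun j => D (q j)) := by
      unfold dp
      rw [map_sum, ← Finset.sum_add_distrib]
      refine Finset.sum_congr rfl fun j _ => ?_
      rw [Derivation.leibniz, smul_eq_mul, smul_eq_mul]
      have e3 : D (gr G x j) = ∑ i, aeval x (pderiv i (pderiv j G)) * D (x i) := chain D x _
      rw [e3, Finset.mul_sum]
      rw [add_comm]
      congr 1
      refine Finset.sum_congr rfl fun i _ => ?_
      ring
    have e3 : ∑ j, ∑ i, aeval x (pderiv i (pderiv j G)) * D (x i) * q j = hs G x q := by
      have e4 : ∑ j, ∑ i, aeval x (pderiv i (pderiv j G)) * D (x i) * q j =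
          (∑ i, ∑ j, aeval x (pderiv i (pderiv j G)) * q i * q j) +
          l * ∑ i, ∑ j, aeval x (pderiv i (pderiv j G)) * x i * q j := by
        rw [Finset.sum_comm, Finset.mul_sum, ← Finset.sum_add_distrib]
        refine Finset.sum_congr rfl fun i _ => ?_
        rw [Finset.mul_sum, ← Finset.sum_add_distrib]
        refine Finset.sum_congr rfl fun j _ => ?_
        rw [hqi i]
        ring
      rw [e4, h2, mul_zero, add_zero]
      rfl
    have e5 : dp (gr G x) r = dp (gr G x) (fun j => D (q j)) - l * dp (gr G x) q := by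
      unfold dp
      rw [Finset.mul_sum, ← Finset.sum_sub_distrib]
      refine Finset.sum_congr rfl fun i _ => ?_
      rw [hr]
      ring
    rw [e5, h1, mul_zero, sub_zero]
    rw [e2, e3] at e1
    linear_combination e1
  have hw : dp x (cr q r) = dt x (fun i => D (x i)) (fun i => D (D (x i))) := by
    have e1 : ∀ i, r i = D (D (x i)) - 2 * l * D (x i) + (l ^ 2 - D l) * x i := by
      intro i
      rw [hr]
      simp only [hqi]
      rw [map_sub, Derivation.leibniz, smul_eq_mul, smul_eq_mul]
      ring
    unfold dt dp cr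
    simp only [e1, hqi, Fin.sum_univ_three]
    simp only [Fin.isValue, zero_add, Fin.reduceAdd]
    ring
  refine ⟨⟨h1, fun i => ?_⟩, ?_, ?_⟩
  · -- `∇G × (q × r) = q (∇G · r) - r (∇G · q)`
    rw [hsc]
    have e1 : cr (gr G x) (cr q r) i = q i * dp (gr G x) r - r i * dp (gr G x) q := by
      have e2 : dp (gr G x) r = gr G x i * r i + gr G x (i + 1) * r (i + 1) +
        gr G x (i + 2) * r (i + 2) := sum3 (fun j => gr G x j * r j) i
      have e3 : dp (gr G x) q = gr G x i * q i + gr G x (i + 1) * q (i + 1) +
        gr G x (i + 2) * q (i + 2) := sum3 (fun j => gr G x j * q j) i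
      rw [e2, e3]
      unfold cr
      rw [ix1, ix2, ix3, ix4]
      ring
    rw [e1, h1, h3]
    ring
  · rw [hsc]
    exact hw
  · intro e n N hI hB
    rw [hsc, hw]
    have e1 := hSCL k e n N hI hB K x (fun i => D (x i))
      (dt x (fun i => D (x i)) (fun i => D (D (x i)))) 1 1 (-l)
    simp only [one_mul, one_pow, mul_one] at e1
    unfold evc
    rw [← e1]
    congr 1
    congr 1
    funext i
    rw [hqi]
    ring

end Pool.Agent.H16.SM
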