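import Pool.Agent.H84.SM.Targets2
import Pool.Agent.H16.SM.JPC

/-!
# CGE: the curve `G = 0` is a solution of the connection
-/

set_option autoImplicit false

namespace Pool.Agent.H16.SM

open MvPolynomial SC Pool.Agent.H27.LV Pool.Agent.H84.SM

theorem chy_val {k L : Type} [Field k] [CommRing L] [Algebra k L] (G : MvPolynomial (Fin 3) k)
    (x q : Fin 3 → L) (l : Fin 3) (g : L) (hq : dp (gr G x) q = 0) (hg : g * gr G x l = 1)
    (i : Fin 3) :
    aeval (Sum.elim x ![g * q (l + 1), g * q (l + 2)]) (chy G l i) = q i := by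
  have hgr : ∀ i, aeval (Sum.elim x ![g * q (l + 1), g * q (l + 2)]) (gr G (xb (k := k)) i) =
      gr G x i := fun i => aeval_sum_xb x _ _
  have hqb0 : aeval (Sum.elim x ![g * q (l + 1), g * q (l + 2)]) (qb (k := k) 0) =
      g * q (l + 1) := by simp [qb]
  have hqb1 : aeval (Sum.elim x ![g * q (l + 1), g * q (l + 2)]) (qb (k := k) 1) =
      g * q (l + 2) := by simp [qb]
  have hq3 : gr G x l * q l + gr G x (l + 1) * q (l + 1) + gr G x (l + 2) * q (l + 2) = 0 := by
    rw [← hq]
    exact (sum3 (fun i => gr G x i * q i) l).symm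
  unfold chy
  split_ifs with h1 h2
  · subst h1
    rw [map_neg, map_add, map_mul, map_mul, hgr, hgr, hqb0, hqb1]
    linear_combination (-g) * hq3 + (q i) * hg
  · subst h2
    rw [map_mul, hgr, hqb0]
    linear_combination (q (l + 1)) * hg
  · have h3 : i = l + 2 := by
      fin_cases l <;> fin_cases i <;> simp_all
    subst h3
    rw [map_mul, hgr, hqb1]
    linear_combination (q (l + 2)) * hg

theorem hs_val {k L : Type} [Field k] [CommRing L] [Algebra k L] (G : MvPolynomial (Fin 3) k)
    (x q : Fin 3 → L) (l : Fin 3) (g : L) (hq : dp (gr G x) q = 0) (hg : g * gr G x l = 1) :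
    aeval (Sum.elim x ![g * q (l + 1), g * q (l + 2)]) (hs G (xb (k := k)) (chy G l)) =
      hs G x q := by
  unfold hs
  rw [map_sum]
  refine Finset.sum_congr rfl fun i _ => ?_
  rw [map_sum]
  refine Finset.sum_congr rfl fun j _ => ?_
  rw [map_mul, map_mul, chy_val G x q l g hq hg, chy_val G x q l g hq hg, aeval_sum_xb]

theorem pf_CGE : T_CGE := by
  intro k L _ _ _ _ D G d α A b c hG hd hC hc0 hl
  obtain ⟨l, hl⟩ := hl
  set y : Fin 3 → L := fun i => D (c i) with hy
  set g : L := (gr G c l)⁻¹ with hg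
  have hg1 : g * gr G c l = 1 := inv_mul_cancel₀ hl
  -- the tangent vector
  have h1 : dp (gr G c) y = 0 := by
    have e := chain D c G
    rw [hc0, map_zero] at e
    exact e.symm
  have h2 : dp c (gr G c) = 0 := by
    rw [euler hG c, hc0, mul_zero]
  have h3 : dp (gr G c) (fun i => D (y i)) = - hs G c y := by
    have e1 : D (dp (gr G c) y) = 0 := by rw [h1, map_zero]
    have e2 : D (dp (gr G c) y) = hs G c y + dp (gr G c) (fun j => D (y j)) := by
      unfold dp hs
      rw [map_sum, Finset.sum_comm, ← Finset.sum_add_distrib]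
      refine Finset.sum_congr rfl fun j _ => ?_
      rw [Derivation.leibniz, smul_eq_mul, smul_eq_mul]
      have e3 : D (gr G c j) = ∑ i, aeval c (pderiv i (pderiv j G)) * D (c i) := chain D c _
      rw [e3, Finset.mul_sum, add_comm]
      congr 1
      refine Finset.sum_congr rfl fun i _ => ?_
      rw [hy]
      ring
    rw [e2] at e1
    linear_combination e1
  -- the value of the connection
  obtain ⟨r, hr⟩ := hC.comp l
  have h4 := congrArg (aeval (Sum.elim c ![g * y (l + 1), g * y (l + 2)])) hr
  rw [map_mul, aeval_sum_xb, hc0, zero_mul, map_sub, map_mul, map_mul, aeval_sum_xb,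
    hs_val G c y l g h1 hg1, map_sub, map_mul, map_mul] at h4
  have hxb : ∀ i, aeval (Sum.elim c ![g * y (l + 1), g * y (l + 2)]) (xb (k := k) i) = c i := by
    intro i; simp [xb]
  have hqb0 : aeval (Sum.elim c ![g * y (l + 1), g * y (l + 2)]) (qb (k := k) 0) =
      g * y (l + 1) := by simp [qb]
  have hqb1 : aeval (Sum.elim c ![g * y (l + 1), g * y (l + 2)]) (qb (k := k) 1) =
      g * y (l + 2) := by simp [qb]
  rw [hxb, hxb, hqb0, hqb1] at h4
  have h5 : aeval (Sum.elim c ![g * y (l + 1), g * y (l + 2)])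
      (aeval (Sum.elim xb (chy G l)) b : B2 k) = aeval (Sum.elim c y) b := by
    have h3 : ((aeval (Sum.elim c ![g * y (l + 1), g * y (l + 2)]) : B2 k →ₐ[k] L).comp
        (aeval (Sum.elim xb (chy G l)) : A2 k →ₐ[k] B2 k)) = aeval (Sum.elim c y) := by
      refine MvPolynomial.algHom_ext fun i => ?_
      rcases i with i | i
      · simp only [AlgHom.comp_apply, aeval_X, Sum.elim_inl]
        exact hxb i
      · simp only [AlgHom.comp_apply, aeval_X, Sum.elim_inr]
        exact chy_val G c y l g h1 hg1 i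
    exact DFunLike.congr_fun h3 b
  rw [h5] at h4
  -- `c × y` is proportional to the gradient
  set P : Fin 3 → L := cr c y with hP
  have hPl : P l = c (l + 1) * y (l + 2) - c (l + 2) * y (l + 1) := rfl
  have hcross : ∀ i, gr G c (i + 1) * P (i + 2) - gr G c (i + 2) * P (i + 1) = 0 := by
    intro i
    have e2 : dp (gr G c) y = gr G c i * y i + gr G c (i + 1) * y (i + 1) +
      gr G c (i + 2) * y (i + 2) := sum3 (fun j => gr G c j * y j) i
    have e3 : dp c (gr G c) = c i * gr G c i + c (i + 1) * gr G c (i + 1) +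
      c (i + 2) * gr G c (i + 2) := sum3 (fun j => c j * gr G c j) i
    rw [h1] at e2
    rw [h2] at e3
    rw [hP]
    unfold cr
    rw [ix1, ix2, ix3, ix4]
    linear_combination (-c i) * e2 + (y i) * e3
  have k1 := hcross (l + 1)
  have k2 := hcross (l + 2)
  rw [ix1, ix2] at k1
  rw [ix3, ix4] at k2
  have e5 : dt c y (fun i => D (y i)) = P l * D (y l) + P (l + 1) * D (y (l + 1)) +
      P (l + 2) * D (y (l + 2)) := by
    have e6 : dt c y (fun i => D (y i)) = c l * cr y (fun i => D (y i)) l +
        c (l + 1) * cr y (fun i => D (y i)) (l + 1) +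
        c (l + 2) * cr y (fun i => D (y i)) (l + 2) :=
      sum3 (fun i => c i * cr y (fun i => D (y i)) i) l
    rw [e6, hP]
    unfold cr
    rw [ix1, ix2, ix3, ix4]
    ring
  have e7 : dp (gr G c) (fun i => D (y i)) = gr G c l * D (y l) +
      gr G c (l + 1) * D (y (l + 1)) + gr G c (l + 2) * D (y (l + 2)) :=
    sum3 (fun i => gr G c i * D (y i)) l
  rw [h3] at e7
  have e8 : dt c y (fun i => D (y i)) = -(g * P l * hs G c y) := by
    rw [e5]
    linear_combination (-g * P l) * e7 - (P l * D (y l) + P (l + 1) * D (y (l + 1)) +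
      P (l + 2) * D (y (l + 2))) * hg1 + (g * D (y (l + 1))) * k2 - (g * D (y (l + 2))) * k1
  have e9 : aeval (Sum.elim c y) b = aeval c A * hs G c y * (g * P l) := by
    rw [hPl]
    linear_combination h4
  have e10 : (fun i => D (D (c i))) = fun i => D (y i) := rfl
  rw [e10, e8, e9]
  ring

end Pool.Agent.H16.SM
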