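import Pool.Agent.H84.SM.Targets2

/-!
# DSC: the equations for the smaller field
-/

set_option autoImplicit false

namespace Pool.Agent.H16.SM.DSC

open MvPolynomial SC Pool.Agent.H27.LV Pool.Agent.H84.SM

theorem aeval_scale {k L : Type} [Field k] [CommRing L] [Algebra k L] {e i : ℕ} {c : A2 k}
    (hc : BH e i c) (x y : Fin 3 → L) (t : L) :
    aeval (Sum.elim x fun j => t * y j) c = t ^ i * aeval (Sum.elim x y) c := by
  rw [aeval_def, aeval_def, eval₂_eq', eval₂_eq', Finset.mul_sum]
  refine Finset.sum_congr rfl fun m hm => ?_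
  have h1 : ∑ j, m (Sum.inr j) = i := by
    have := hc.2 (mem_support_iff.1 hm)
    rw [Finsupp.weight_apply, Finsupp.sum_fintype _ _ (by simp), Fintype.sum_sum_type] at this
    simpa [wy] using this
  have h2 : ∏ s, (Sum.elim x fun j => t * y j) s ^ m s =
      t ^ i * ∏ s, (Sum.elim x y) s ^ m s := by
    rw [Fintype.prod_sum_type, Fintype.prod_sum_type, ← h1, ← Finset.prod_pow_eq_pow_sum]
    simp only [Sum.elim_inl, Sum.elim_inr, mul_pow, Finset.prod_mul_distrib]
    ring
  rw [h2]
  ring

theorem aeval_map {k L M : Type} [Field k] [CommRing L] [Algebra k L] [CommRing M] [Algebra k M]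
    {σ : Type} (f : L →ₐ[k] M) (z : σ → L) (c : MvPolynomial σ k) :
    aeval (fun i => f (z i)) c = f (aeval z c) := by
  have h : (aeval (fun i => f (z i)) : MvPolynomial σ k →ₐ[k] M) = f.comp (aeval z) := by
    refine MvPolynomial.algHom_ext fun i => ?_
    simp
  rw [h]
  rfl

theorem pf_DSC : T_DSC := by
  intro k K0 K _ _ _ _ _ _ ι D D0 μ x0 hμ hD
  have e1 : ∀ (c : A2 k), aeval (Sum.elim (fun j => ι (x0 j)) fun j => ι (D0 (x0 j))) c =
      ι (aeval (Sum.elim x0 fun j => D0 (x0 j)) c) := by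
    intro c
    rw [← aeval_map]
    congr 2
    funext i
    rcases i with i | i <;> rfl
  have e2 : ∀ (c : A2 k) (e i : ℕ), BH e i c →
      aeval (Sum.elim (fun j => ι (x0 j)) fun j => D (ι (x0 j))) c =
      μ ^ i * ι (aeval (Sum.elim x0 fun j => D0 (x0 j)) c) := by
    intro c e i hc
    rw [← e1, ← aeval_scale hc]
    congr 2
    congr 1
    funext j
    exact hD _
  constructor
  · intro c e i hc h
    rw [e2 c e i hc] at h
    exact (map_eq_zero ι).1 ((mul_eq_zero.1 h).resolve_left (pow_ne_zero _ hμ))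
  · intro α A b hA hb _ h
    unfold CEq at h ⊢
    rw [e2 b α 3 hb, aeval_map] at h
    have e3 : dt (fun j => ι (x0 j)) (fun i => D (ι (x0 i))) (fun i => D (D (ι (x0 i)))) =
        μ ^ 3 * ι (dt x0 (fun i => D0 (x0 i)) (fun i => D0 (D0 (x0 i)))) := by
      have e4 : (fun i => D (D (ι (x0 i)))) = fun i => D μ * ι (D0 (x0 i)) +
          μ ^ 2 * ι (D0 (D0 (x0 i))) := by
        funext i
        rw [hD, Derivation.leibniz, hD]
        simp only [smul_eq_mul]
        ring
      rw [e4, show (fun i => D (ι (x0 i))) = fun i => μ * ι (D0 (x0 i)) from funext fun i => hD _]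
      unfold dt dp cr
      simp only [Fin.sum_univ_three, Fin.isValue, zero_add, Fin.reduceAdd, map_add, map_mul,
        map_sub]
      ring
    rw [e3] at h
    have h5 : μ ^ 3 * ι (aeval x0 A * dt x0 (fun i => D0 (x0 i)) (fun i => D0 (D0 (x0 i))) +
        aeval (Sum.elim x0 fun i => D0 (x0 i)) b) = 0 := by
      rw [map_add, map_mul, ← h]
      ring
    exact (map_eq_zero ι).1 ((mul_eq_zero.1 h5).resolve_left (pow_ne_zero _ hμ))

end Pool.Agent.H16.SM.DSC
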