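import Pool.Agent.H84.SM.Targets

/-!
# LED and LEL: dimensions by leading coefficients
-/

set_option autoImplicit false

namespace Pool.Agent.H16.SM

open Pool.Agent.H84.SM

theorem pf_LED : T_LED := by
  intro k V L _ _ _ _ _ m
  induction m generalizing V with
  | zero =>
    intro φ F W _ hW h1 _
    have hT : W = ⊤ := by
      rw [eq_top_iff]
      intro v _
      exact h1 v fun i => i.elim0
    subst hT
    have e : (⊤ : Submodule k V) ≃ₗ[k] V := Submodule.topEquiv
    refine ⟨Module.Finite.equiv e, ?_⟩
    rw [e.finrank_eq]
    simp
  | succ m ih =>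
    intro φ F W hF hW h1 h2
    let V' : Submodule k V := LinearMap.ker (φ 0)
    let W' : Submodule k V' := W.comap V'.subtype
    let g : W' →ₗ[k] W :=
      { toFun := fun x => ⟨x.1.1, x.2⟩
        map_add' := fun x y => rfl
        map_smul' := fun c x => rfl }
    have hg : Function.Injective g := by
      intro x y hxy
      have h3 : x.1.1 = y.1.1 := congrArg (fun z : W => z.1) hxy
      exact Subtype.ext (Subtype.ext h3)
    have hW' : Module.Finite k W' := Module.Finite.of_injective g hg
    have hWl : Module.finrank k W' ≤ Module.finrank k W :=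
      LinearMap.finrank_le_finrank_of_injective hg
    obtain ⟨k1, k2⟩ := ih V' (fun i => (φ i.succ).comp V'.subtype) (fun i => F i.succ) W'
      (fun i => hF i.succ) hW' (by
        intro v hv
        refine h1 v.1 fun i => ?_
        refine Fin.cases ?_ (fun i => ?_) i
        · exact v.2
        · exact hv i) (by
        intro v i hv
        refine h2 v.1 i.succ fun j hj => ?_
        revert hj
        refine Fin.cases (fun _ => ?_) (fun j hj => ?_) j
        · exact v.2
        · exact hv j (Fin.succ_lt_succ_iff.1 hj))
    have hr : LinearMap.range (φ 0) ≤ F 0 := by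
      rintro _ ⟨v, rfl⟩
      exact h2 v 0 fun j hj => absurd hj (Fin.not_lt_zero j)
    have hF0 := hF 0
    have hrF : Module.Finite k (LinearMap.range (φ 0)) :=
      Module.Finite.of_injective (Submodule.inclusion hr) (Submodule.inclusion_injective hr)
    have hrl : Module.finrank k (LinearMap.range (φ 0)) ≤ Module.finrank k (F 0) :=
      LinearMap.finrank_le_finrank_of_injective (Submodule.inclusion_injective hr)
    have hq : Module.Finite k (V ⧸ LinearMap.ker (φ 0)) :=
      Module.Finite.equiv (φ 0).quotKerEquivRange.symm
    have hk : Module.Finite k (LinearMap.ker (φ 0)) := k1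
    have hV : Module.Finite k V := Module.Finite.of_submodule_quotient (LinearMap.ker (φ 0))
    refine ⟨hV, ?_⟩
    have h3 := LinearMap.finrank_range_add_finrank_ker (φ 0)
    have h4 : Module.finrank k (LinearMap.ker (φ 0)) ≤
      Module.finrank k W' + ∑ i, Module.finrank k (F (Fin.succ i)) := k2
    rw [Fin.sum_univ_succ]
    omega

theorem pf_LEL : T_LEL := by
  intro k V L _ _ _ _ _ m
  induction m generalizing V with
  | zero =>
    intro φ F _ _ _
    simp
  | succ m ih =>
    intro φ F hV hF h
    let V' : Submodule k V := LinearMap.ker (φ 0)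
    have k2 := ih V' (fun i => (φ i.succ).comp V'.subtype) (fun i => F i.succ)
      (Module.Finite.of_injective V'.subtype V'.injective_subtype) (fun i => hF i.succ) (by
        intro i f hf
        obtain ⟨v, hv, hvf⟩ := h i.succ f hf
        refine ⟨⟨v, hv 0 (Fin.succ_pos i)⟩, fun j hj => hv j.succ (Fin.succ_lt_succ_iff.2 hj), hvf⟩)
    have hr : F 0 ≤ LinearMap.range (φ 0) := by
      intro f hf
      obtain ⟨v, -, hv⟩ := h 0 f hf
      exact ⟨v, hv⟩
    have hF0 := hF 0
    have hrl : Module.finrank k (F 0) ≤ Module.finrank k (LinearMap.range (φ 0)) :=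
      LinearMap.finrank_le_finrank_of_injective (Submodule.inclusion_injective hr)
    have h3 := LinearMap.finrank_range_add_finrank_ker (φ 0)
    have h4 : ∑ i, Module.finrank k (F (Fin.succ i)) ≤ Module.finrank k (LinearMap.ker (φ 0)) := k2
    rw [Fin.sum_univ_succ]
    omega

end Pool.Agent.H16.SM
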