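import Pool.Agent.H84.SM.Targets

/-!
# VAL: values of a section in a chart
-/

set_option autoImplicit false

namespace Pool.Agent.H16.SM

open MvPolynomial SC Pool.Agent.H27.LV Pool.Agent.H84.SM

theorem sum3 {L : Type} [AddCommMonoid L] (f : Fin 3 → L) (l : Fin 3) :
    ∑ i, f i = f l + f (l + 1) + f (l + 2) := by
  rw [Fin.sum_univ_three]
  fin_cases l
  · rfl
  · show f 0 + f 1 + f 2 = f 1 + f 2 + f 0
    rw [add_comm _ (f 0), add_assoc]
  · show f 0 + f 1 + f 2 = f 2 + f 0 + f 1
    rw [add_comm _ (f 2), add_assoc]

theorem ix1 (l : Fin 3) : l + 1 + 1 = l + 2 := by fin_cases l <;> rfl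
theorem ix2 (l : Fin 3) : l + 1 + 2 = l := by fin_cases l <;> rfl
theorem ix3 (l : Fin 3) : l + 2 + 1 = l := by fin_cases l <;> rfl
theorem ix4 (l : Fin 3) : l + 2 + 2 = l + 1 := by fin_cases l <;> rfl

/-- the theorem of Euler -/
theorem euler {k L : Type} [Field k] [CommRing L] [Algebra k L] {G : MvPolynomial (Fin 3) k}
    {d : ℕ} (hG : G.IsHomogeneous d) (x : Fin 3 → L) :
    dp x (gr G x) = d * aeval x G := by
  have h := congrArg (aeval x) hG.sum_X_mul_pderiv
  rw [map_sum, map_nsmul, nsmul_eq_mul] at h
  rw [← h]
  unfold dp gr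
  refine Finset.sum_congr rfl fun i _ => ?_
  rw [map_mul, aeval_X]

theorem aeval_sum_xb {k L : Type} [Field k] [CommRing L] [Algebra k L] (x : Fin 3 → L)
    (z : Fin 2 → L) (P : MvPolynomial (Fin 3) k) :
    aeval (Sum.elim x z) (aeval xb P : B2 k) = aeval x P := by
  have h : ((aeval (Sum.elim x z) : B2 k →ₐ[k] L).comp (aeval xb)) = aeval x := by
    refine MvPolynomial.algHom_ext fun i => ?_
    simp [xb]
  exact DFunLike.congr_fun h P

theorem pf_VAL : T_VAL := by
  intro k _ G d hG L _ _ x q s l g hJP hg N
  obtain ⟨hq, hs'⟩ := hJP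
  have hz : ∀ P : MvPolynomial (Fin 3) k,
      aeval (Sum.elim x ![g * q (l + 1), g * q (l + 2)]) (aeval xb P : B2 k) = aeval x P :=
    fun P => aeval_sum_xb x _ P
  have hgr : ∀ i, aeval (Sum.elim x ![g * q (l + 1), g * q (l + 2)]) (gr G (xb (k := k)) i) =
      gr G x i := fun i => hz _
  have hqb0 : aeval (Sum.elim x ![g * q (l + 1), g * q (l + 2)]) (qb (k := k) 0) =
      g * q (l + 1) := by simp [qb]
  have hqb1 : aeval (Sum.elim x ![g * q (l + 1), g * q (l + 2)]) (qb (k := k) 1) =
      g * q (l + 2) := by simp [qb]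
  have hxb : ∀ i, aeval (Sum.elim x ![g * q (l + 1), g * q (l + 2)]) (xb (k := k) i) = x i := by
    intro i; simp [xb]
  have hq3 : gr G x l * q l + gr G x (l + 1) * q (l + 1) + gr G x (l + 2) * q (l + 2) = 0 := by
    rw [← hq]
    exact (sum3 (fun i => gr G x i * q i) l).symm
  have hchy : ∀ i, aeval (Sum.elim x ![g * q (l + 1), g * q (l + 2)]) (chy G l i) = q i := by
    intro i
    unfold chy
    split_ifs with h1 h2
    · subst h1
      rw [map_neg, map_add, map_mul, map_mul, hgr, hgr, hqb0, hqb1]
      linear_combination (-g) * hq3 + (q i) * hg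
    · subst h2
      rw [map_mul, hgr, hqb0]
      linear_combination (q (l + 1)) * hg
    · have h3 : i = l + 2 := by
        fin_cases l <;> fin_cases i <;> simp_all
      subst h3
      rw [map_mul, hgr, hqb1]
      linear_combination (q (l + 2)) * hg
  have hhs : aeval (Sum.elim x ![g * q (l + 1), g * q (l + 2)]) (hs G (xb (k := k)) (chy G l)) =
      hs G x q := by
    unfold hs
    rw [map_sum]
    refine Finset.sum_congr rfl fun i _ => ?_
    rw [map_sum]
    refine Finset.sum_congr rfl fun j _ => ?_
    rw [map_mul, map_mul, hchy, hchy, hz]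
  have hE := euler hG x
  constructor
  · have key : (evl l g x q s).comp (Psi G d l) = ev x q (dp x s) := by
      refine Polynomial.ringHom_ext' ?_ ?_
      · refine RingHom.ext fun a => ?_
        have h1 : Psi G d l (Polynomial.C a) =
            Polynomial.C (aeval (Sum.elim xb (chy G l)) a) := by
          unfold Psi
          rw [Polynomial.coe_eval₂RingHom, Polynomial.eval₂_C]
          rfl
        have h2 : ev x q (dp x s) (Polynomial.C a) = aeval (Sum.elim x q) a := by
          unfold ev
          rw [Polynomial.coe_eval₂RingHom, Polynomial.eval₂_C]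
          rfl
        show evl l g x q s (Psi G d l (Polynomial.C a)) = ev x q (dp x s) (Polynomial.C a)
        rw [h1, h2]
        unfold evl
        rw [Polynomial.coe_eval₂RingHom, Polynomial.eval₂_C]
        show aeval _ (aeval _ a) = _
        have h3 : ((aeval (Sum.elim x ![g * q (l + 1), g * q (l + 2)]) : B2 k →ₐ[k] L).comp
            (aeval (Sum.elim xb (chy G l)) : A2 k →ₐ[k] B2 k)) = aeval (Sum.elim x q) := by
          refine MvPolynomial.algHom_ext fun i => ?_
          rcases i with i | i
          · simp only [AlgHom.comp_apply, aeval_X, Sum.elim_inl]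
            exact hxb i
          · simp only [AlgHom.comp_apply, aeval_X, Sum.elim_inr]
            exact hchy i
        exact DFunLike.congr_fun h3 a
      · show evl l g x q s (Psi G d l Polynomial.X) = ev x q (dp x s) Polynomial.X
        have h1 : Psi G d l Polynomial.X = chw G d l := by
          unfold Psi
          rw [Polynomial.coe_eval₂RingHom, Polynomial.eval₂_X]
        have h2 : ev x q (dp x s) (Polynomial.X : R2 k) = dp x s := by
          unfold ev
          rw [Polynomial.coe_eval₂RingHom, Polynomial.eval₂_X]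
        rw [h1, h2]
        unfold chw evl
        rw [map_sub, map_mul, Polynomial.coe_eval₂RingHom, Polynomial.eval₂_C, Polynomial.eval₂_C,
          Polynomial.eval₂_X]
        show aeval _ ((d : B2 k) * aeval xb G) * (g * s l) -
          aeval _ (hs G xb (chy G l) * (xb (l + 1) * qb 1 - xb (l + 2) * qb 0)) = _
        rw [map_mul, map_mul, map_sub, map_mul, map_mul, hhs, hz, map_natCast, hxb, hxb, hqb0, hqb1]
        have e1 := hs' (l + 1)
        have e2 := hs' (l + 2)
        unfold cr at e1 e2
        rw [ix1, ix2] at e1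
        rw [ix3, ix4] at e2
        have e3 : dp x (gr G x) = x l * gr G x l + x (l + 1) * gr G x (l + 1) +
            x (l + 2) * gr G x (l + 2) := sum3 (fun i => x i * gr G x i) l
        have e4 : dp x s = x l * s l + x (l + 1) * s (l + 1) + x (l + 2) * s (l + 2) :=
          sum3 (fun i => x i * s i) l
        rw [e3] at hE
        rw [e4]
        linear_combination (-g * s l) * hE + (x l * s l + x (l + 1) * s (l + 1) +
          x (l + 2) * s (l + 2)) * hg + (g * x (l + 2)) * e1 - (g * x (l + 1)) * e2
    exact DFunLike.congr_fun key N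
  · unfold gp evl
    rw [Polynomial.coe_eval₂RingHom, Polynomial.eval₂_C]
    exact hz G

end Pool.Agent.H16.SM
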