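import Pool.Agent.H16.SM.AF1tb
import Pool.Agent.H37.CV.All

/-!
# The first approximate functional equation at every height (row AF1t)
-/

set_option autoImplicit false

namespace Pool.Agent.H16.SM

open Pool.Agent.H20.SM Pool.Agent.H37.CV Pool.Agent.H28.RC

theorem pf_AF1t : T_AF1t := af1t_of a_SH a_GB a_EN a_ZK T_HEc_proved c_GW

end Pool.Agent.H16.SM
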