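import Pool.Agent.H20.SM.TT
import Pool.Agent.H56.CV.AF1

/-!
# The first approximate functional equation at every height (row AF1t), conditional form
-/

set_option autoImplicit false

open NumberField NumberField.InfinitePlace Complex MeasureTheory Set Filter Topology

namespace Pool.Agent.H16.SM

open Pool.Agent.H20.SM Pool.Agent.H56.CV Pool.Agent.H37.CV Pool.Agent.H28.RC Pool.Agent.H25.HK

section

variable {K : Type} [Field K] [NumberField K]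

theorem norm_cpow_half {x : ℝ} (hx : 0 < x) (t : ℝ) :
    ‖(x : ℂ) ^ (-(1 / 2 + t * I))‖ = x ^ (-(1 / 2) : ℝ) := by
  rw [Complex.norm_cpow_eq_rpow_re_of_pos hx]
  congr 1
  simp

/-- the sum as an integral over the line `re = 2` -/
theorem A1t_eq (hSH : T_SH) (hZK : T_ZK) (χ : RCC K) {Z : ℂ → ℂ}
    (hZ : IsEnt χ Z) {X : ℝ} (hX : 0 < X) (t : ℝ) :
    A1t X t χ.ψ = ((1 / (2 * Real.pi) : ℝ) : ℂ) * ∫ u : ℝ,
      Z (1 / 2 + t * I + ((2 : ℝ) + u * I)) *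
      (X : ℂ) ^ (((2 : ℝ) : ℂ) + u * I) * (cexp (((2 : ℝ) + u * I) ^ 2) / ((2 : ℝ) + u * I)) := by
  have hcount : Countable (NI K) := NI_countable hZK
  have hg0 := (hSH (fun _ => 1) (-1) 2 (by norm_num) (fun s _ _ => by fun_prop)
    ⟨1, 0, fun s _ _ => by simp⟩).2.1 (by norm_num) (by norm_num)
  have hg1 : Integrable (fun t : ℝ => cexp (((2 : ℝ) + t * I) ^ 2) / ((2 : ℝ) + t * I)) := by
    simpa using hg0.1
  obtain ⟨g, hgdef⟩ : ∃ g : ℝ → ℂ, g = fun u : ℝ => cexp (((2 : ℝ) + u * I) ^ 2) / ((2 : ℝ) + u * I) :=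
    ⟨_, rfl⟩
  rw [← hgdef] at hg1
  have hs := nm_summable (K := K) hZK (σ := 5 / 2) (by norm_num)
  obtain ⟨c, hc⟩ : ∃ c : NI K → ℂ, c = fun a => χ.ψ a.1 * ((nm a.1 : ℝ) : ℂ) ^ (-(1 / 2 + t * I)) :=
    ⟨_, rfl⟩
  have hcs : Summable fun a : NI K => ‖c a‖ * (nm a.1 / X) ^ (-(2 : ℝ)) := by
    refine Summable.of_nonneg_of_le (fun a => mul_nonneg (norm_nonneg _)
      (Real.rpow_nonneg (div_pos (nm_pos a) hX).le _)) (fun a => ?_) (hs.mul_right (X ^ (2 : ℝ)))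
    have h1 := nm_pos a
    have h2 : ‖c a‖ ≤ nm a.1 ^ (-(1 / 2) : ℝ) := by
      rw [hc]
      simp only [norm_mul]
      rw [norm_cpow_half h1 t]
      exact mul_le_of_le_one_left (Real.rpow_nonneg h1.le _) (rcc_norm_le χ a.1)
    have h3 : (nm a.1 / X) ^ (-(2 : ℝ)) = nm a.1 ^ (-(2 : ℝ)) * X ^ (2 : ℝ) := by
      rw [Real.div_rpow h1.le hX.le, Real.rpow_neg hX.le, div_inv_eq_mul]
    rw [h3]
    calc ‖c a‖ * (nm a.1 ^ (-(2 : ℝ)) * X ^ (2 : ℝ))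
        ≤ nm a.1 ^ (-(1 / 2) : ℝ) * (nm a.1 ^ (-(2 : ℝ)) * X ^ (2 : ℝ)) :=
          mul_le_mul_of_nonneg_right h2 (by positivity)
      _ = nm a.1 ^ (-(5 / 2) : ℝ) * X ^ (2 : ℝ) := by
          rw [← mul_assoc, ← Real.rpow_add h1]
          norm_num
  have key := swap c (fun a : NI K => nm a.1 / X) (fun a => div_pos (nm_pos a) hX) 2 hcs g hg1
  have h1 : A1t X t χ.ψ = ((1 / (2 * Real.pi) : ℝ) : ℂ) *
      ∑' a : NI K, c a * ∫ u : ℝ, g u * ((nm a.1 / X : ℝ) : ℂ) ^ (-(((2 : ℝ) : ℂ) + u * I)) := by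
    unfold A1t
    rw [← tsum_mul_left]
    refine tsum_congr fun a => ?_
    unfold wf
    rw [hc, hgdef]
    push_cast
    ring
  rw [h1, key.tsum_eq]
  congr 1
  refine integral_congr_ae (Eventually.of_forall fun u => ?_)
  have hre : 1 < (1 / 2 + t * I + (((2 : ℝ) : ℂ) + u * I)).re := by simp; norm_num
  simp only []
  rw [hZ.2 _ hre]
  have h2 : ∑' a : NI K, c a * ((nm a.1 / X : ℝ) : ℂ) ^ (-(((2 : ℝ) : ℂ) + u * I)) =
      Lc χ (1 / 2 + t * I + (((2 : ℝ) : ℂ) + u * I)) * (X : ℂ) ^ (((2 : ℝ) : ℂ) + u * I) := by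
    unfold Lc
    rw [← tsum_mul_right]
    refine tsum_congr fun a => ?_
    have hca : c a = χ.ψ a.1 * ((nm a.1 : ℝ) : ℂ) ^ (-(1 / 2 + t * I)) := by rw [hc]
    rw [div_cpow' (nm_pos a) hX, hca]
    have h3 : ((nm a.1 : ℝ) : ℂ) ^ (-(1 / 2 + t * I)) *
        ((nm a.1 : ℝ) : ℂ) ^ (-(((2 : ℝ) : ℂ) + u * I)) =
        ((nm a.1 : ℝ) : ℂ) ^ (-(1 / 2 + t * I + (((2 : ℝ) : ℂ) + u * I))) := by
      rw [← Complex.cpow_add _ _ (by exact_mod_cast (nm_pos a).ne')]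
      congr 1
      ring
    have h4 : ((nm a.1 : ℝ) : ℂ) = (Ideal.absNorm a.1 : ℂ) := by
      unfold nm
      push_cast
      rfl
    rw [h4] at h3 ⊢
    rw [← h3]
    ring
  rw [h2, hgdef]
  ring

/-- the integrand of the shifted integral satisfies the hypotheses of (SH) -/
theorem Ft_str (hHE : T_HEc) (hGW : T_GWc) (χ : RCC K) {Z : ℂ → ℂ} (hZ : IsEnt χ Z) {X : ℝ}
    (hX : 0 < X) (A t : ℝ) :
    (∀ s : ℂ, -A ≤ s.re → s.re ≤ 2 →
      DifferentiableAt ℂ (fun s => Z (1 / 2 + t * I + s) * (X : ℂ) ^ s) s) ∧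
    ∃ C B : ℝ, ∀ s : ℂ, -A ≤ s.re → s.re ≤ 2 →
      ‖Z (1 / 2 + t * I + s) * (X : ℂ) ^ s‖ ≤ C * (1 + |s.im|) ^ B := by
  refine ⟨fun s _ _ => ?_, ?_⟩
  · have h1 : DifferentiableAt ℂ (fun s : ℂ => Z (1 / 2 + t * I + s)) s :=
      (hZ.1 (1 / 2 + t * I + s)).comp s (by fun_prop)
    refine h1.mul ?_
    exact differentiableAt_id.const_cpow (Or.inl (by exact_mod_cast hX.ne'))
  · obtain ⟨C, B, hC⟩ := poly_bd hHE hGW χ hZ (|A| + 3)
    refine ⟨|C| * (1 + |t|) ^ |B| * Real.exp (|Real.log X| * (|A| + 2)), |B|, fun s h1 h2 => ?_⟩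
    have hA1 := le_abs_self A
    have hA0 := abs_nonneg A
    have hre : (1 / 2 + t * I + s).re = 1 / 2 + s.re := by simp
    have him : (1 / 2 + t * I + s).im = t + s.im := by simp
    have h3 : |(1 / 2 + t * I + s).re| ≤ |A| + 3 := by
      rw [hre, abs_le]
      constructor <;> linarith
    have h4 := hC _ h3
    rw [him] at h4
    have h6 : ‖(X : ℂ) ^ s‖ ≤ Real.exp (|Real.log X| * (|A| + 2)) := by
      rw [Complex.norm_cpow_eq_rpow_re_of_pos hX, Real.rpow_def_of_pos hX]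
      refine Real.exp_le_exp.2 ((le_abs_self _).trans ?_)
      rw [abs_mul]
      refine mul_le_mul_of_nonneg_left ?_ (abs_nonneg _)
      rw [abs_le]
      constructor <;> linarith
    have ht0 := abs_nonneg t
    have hs0 := abs_nonneg s.im
    have h8 : 1 + |t + s.im| ≤ (1 + |t|) * (1 + |s.im|) := by
      have := abs_add_le t s.im
      have h9 : 0 ≤ |t| * |s.im| := mul_nonneg ht0 hs0
      linarith
    have h7 : (1 + |t + s.im|) ^ B ≤ (1 + |t|) ^ |B| * (1 + |s.im|) ^ |B| := by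
      have h9 : (1 : ℝ) ≤ 1 + |t + s.im| := by linarith [abs_nonneg (t + s.im)]
      calc (1 + |t + s.im|) ^ B ≤ (1 + |t + s.im|) ^ |B| :=
            Real.rpow_le_rpow_of_exponent_le h9 (le_abs_self B)
        _ ≤ ((1 + |t|) * (1 + |s.im|)) ^ |B| :=
            Real.rpow_le_rpow (by linarith) h8 (abs_nonneg B)
        _ = _ := Real.mul_rpow (by linarith) (by linarith)
    have h10 : ‖Z (1 / 2 + t * I + s)‖ ≤ |C| * ((1 + |t|) ^ |B| * (1 + |s.im|) ^ |B|) := by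
      refine h4.trans ?_
      refine (mul_le_mul_of_nonneg_right (le_abs_self C)
        (Real.rpow_nonneg (by linarith [abs_nonneg (t + s.im)]) _)).trans ?_
      exact mul_le_mul_of_nonneg_left h7 (abs_nonneg C)
    rw [norm_mul]
    calc ‖Z (1 / 2 + t * I + s)‖ * ‖(X : ℂ) ^ s‖
        ≤ (|C| * ((1 + |t|) ^ |B| * (1 + |s.im|) ^ |B|)) *
            Real.exp (|Real.log X| * (|A| + 2)) :=
          mul_le_mul h10 h6 (norm_nonneg _) (by positivity)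
      _ = _ := by ring

end

theorem af1t_of (hSH : T_SH) (hGB : T_GB) (hEN : T_EN) (hZK : T_ZK) (hHE : T_HEc)
    (hGW : T_GWc) : T_AF1t := by
  intro K _ _ _ A T hA hT
  obtain ⟨C, hC⟩ := hGB.2 A
  obtain ⟨r, hr⟩ : ∃ r, r = nrComplexPlaces K := ⟨_, rfl⟩
  obtain ⟨S, hS⟩ : ∃ S, S = ∑' I : NI K, nm I.1 ^ (-(1 / 2 + A : ℝ)) := ⟨_, rfl⟩
  have hA' : (1 : ℝ) ≤ A := by exact_mod_cast hA
  have hCr : 0 ≤ C := by
    obtain ⟨h1, h2⟩ := hC 0
    by_contra h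
    push Not at h
    have h3 : C * (1 + |(0 : ℝ)|) ^ (2 * A) * ‖Gammaℂ (1 / 2 - A + (0 : ℝ) * I)‖ < 0 := by
      refine mul_neg_of_neg_of_pos (mul_neg_of_neg_of_pos h (by positivity)) (norm_pos_iff.2 h1)
    have h4 := norm_nonneg (Gammaℂ (1 / 2 + A - (0 : ℝ) * I))
    linarith
  have hS0 : 0 ≤ S := by
    rw [hS]
    exact tsum_nonneg fun I => Real.rpow_nonneg (nm_pos I).le _
  have hint := Pool.Agent.Ratios.integrable_exp_neg_mul_abs 1 one_pos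
  obtain ⟨B, hB⟩ : ∃ B : ℝ, B = C ^ r * (1 + T) ^ (2 * A * r) * S *
      Real.exp ((A : ℝ) ^ 2 + (((2 * A * r : ℕ) : ℝ) + 1) ^ 2) := ⟨_, rfl⟩
  have hB0 : 0 ≤ B := by rw [hB]; positivity
  refine ⟨1 / (2 * Real.pi) * (B * ∫ t : ℝ, Real.exp (-(1 * |t|))), ?_⟩
  intro χ hf Z hZ X t hX htT
  have hD := cnd_pos χ
  obtain ⟨D, hDdef⟩ : ∃ D, D = cnd K χ.f := ⟨_, rfl⟩
  rw [← hDdef] at hD
  obtain ⟨hd, hb⟩ := Ft_str hHE hGW χ hZ hX A t
  have hsh := (hSH (fun s => Z (1 / 2 + t * I + s) * (X : ℂ) ^ s) (-A) 2 (by linarith) hd hb).2.1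
    (by linarith) (by norm_num)
  obtain ⟨-, -, h3⟩ := hsh
  have hA1 := A1t_eq hSH hZK χ hZ hX t
  simp only [add_zero, cpow_zero, mul_one] at h3
  obtain ⟨J₁, hJ₁⟩ : ∃ J₁ : ℂ, J₁ = ∫ u : ℝ, Z (1 / 2 + t * I + (((2 : ℝ) : ℂ) + u * I)) *
      (X : ℂ) ^ (((2 : ℝ) : ℂ) + u * I) * (cexp ((((2 : ℝ) : ℂ) + u * I) ^ 2) /
        (((2 : ℝ) : ℂ) + u * I)) := ⟨_, rfl⟩
  obtain ⟨J₂, hJ₂⟩ : ∃ J₂ : ℂ, J₂ = ∫ u : ℝ, Z (1 / 2 + t * I + (((-A : ℝ) : ℂ) + u * I)) *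
      (X : ℂ) ^ (((-A : ℝ) : ℂ) + u * I) * (cexp ((((-A : ℝ) : ℂ) + u * I) ^ 2) /
        (((-A : ℝ) : ℂ) + u * I)) := ⟨_, rfl⟩
  rw [← hJ₁, ← hJ₂] at h3
  rw [← hJ₁] at hA1
  have hpi : (Real.pi : ℂ) ≠ 0 := ofReal_ne_zero.mpr Real.pi_pos.ne'
  have hdiff : Z (1 / 2 + t * I) - A1t X t χ.ψ = -(((1 / (2 * Real.pi) : ℝ) : ℂ) * J₂) := by
    rw [hA1]
    have h4 : Z (1 / 2 + t * I) = ((1 / (2 * Real.pi) : ℝ) : ℂ) * (J₁ - J₂) := by
      rw [h3]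
      push_cast
      field_simp
    rw [h4]
    ring
  have hJb : ‖J₂‖ ≤ ∫ t : ℝ, (B * (D / X) ^ A) * Real.exp (-(1 * |t|)) := by
    rw [hJ₂]
    refine norm_integral_le_of_norm_le (hint.const_mul _) (Eventually.of_forall fun u => ?_)
    have h5 := left_bd hEN hZK A hA hC χ hf hZ (t + u)
    rw [← hr, ← hS, ← hDdef] at h5
    have h6 : (1 / 2 + t * I + (((-A : ℝ) : ℂ) + u * I)) = 1 / 2 - A + ((t + u : ℝ) : ℂ) * I := by
      push_cast
      ring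
    have h7 : (((-A : ℝ) : ℂ) + u * I) = (-A + u * I : ℂ) := by
      push_cast
      ring
    have h8 : ‖(X : ℂ) ^ (((-A : ℝ) : ℂ) + u * I)‖ = (X ^ A)⁻¹ := by
      rw [Complex.norm_cpow_eq_rpow_re_of_pos hX]
      simp [Real.rpow_neg hX.le]
    have h9 : 1 ≤ ‖((-A : ℝ) : ℂ) + u * I‖ := by
      refine hA'.trans ?_
      have := Complex.abs_re_le_norm (((-A : ℝ) : ℂ) + u * I)
      simpa using this
    have h10 := gauss_bd (2 * A * r) A u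
    rw [Complex.ofReal_natCast] at h10
    rw [norm_mul, norm_mul, norm_div, h6, h8]
    rw [h7] at h9 ⊢
    obtain ⟨G, hG⟩ : ∃ G, G = ‖cexp ((-A + u * I : ℂ) ^ 2)‖ := ⟨_, rfl⟩
    have hG0 : 0 ≤ G := by rw [hG]; exact norm_nonneg _
    rw [← hG] at h10 ⊢
    have h11 : G / ‖(-A + u * I : ℂ)‖ ≤ G := div_le_self hG0 h9
    have hXA : 0 < X ^ A := pow_pos hX A
    have ht0 := abs_nonneg t
    have hu0 := abs_nonneg u
    have h12 : 1 + |t + u| ≤ (1 + T) * (1 + |u|) := by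
      have := abs_add_le t u
      have h9 : 0 ≤ T * |u| := mul_nonneg hT.le hu0
      linarith
    have h13 : (C * (1 + |t + u|) ^ (2 * A)) ^ r ≤
        C ^ r * (1 + T) ^ (2 * A * r) * (1 + |u|) ^ (2 * A * r) := by
      have h14 : (1 + |t + u|) ^ (2 * A * r) ≤ ((1 + T) * (1 + |u|)) ^ (2 * A * r) :=
        pow_le_pow_left₀ (by linarith [abs_nonneg (t + u)]) h12 _
      have e1 : (C * (1 + |t + u|) ^ (2 * A)) ^ r = C ^ r * (1 + |t + u|) ^ (2 * A * r) := by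
        rw [mul_pow, ← pow_mul]
      have e2 : C ^ r * (1 + T) ^ (2 * A * r) * (1 + |u|) ^ (2 * A * r) =
          C ^ r * ((1 + T) * (1 + |u|)) ^ (2 * A * r) := by
        rw [mul_pow, mul_assoc]
      rw [e1, e2]
      exact mul_le_mul_of_nonneg_left h14 (pow_nonneg hCr r)
    have h15 : ‖Z (1 / 2 - A + ((t + u : ℝ) : ℂ) * I)‖ ≤
        D ^ A * (C ^ r * (1 + T) ^ (2 * A * r) * (1 + |u|) ^ (2 * A * r)) * S := by
      refine h5.trans ?_
      exact mul_le_mul_of_nonneg_right (mul_le_mul_of_nonneg_left h13 (pow_pos hD A).le) hS0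
    calc ‖Z (1 / 2 - A + ((t + u : ℝ) : ℂ) * I)‖ * (X ^ A)⁻¹ * (G / ‖(-A + u * I : ℂ)‖)
        ≤ (D ^ A * (C ^ r * (1 + T) ^ (2 * A * r) * (1 + |u|) ^ (2 * A * r)) * S) *
            (X ^ A)⁻¹ * G := by
          refine mul_le_mul (mul_le_mul_of_nonneg_right h15 (by positivity)) h11
            (by positivity) (by positivity)
      _ = C ^ r * (1 + T) ^ (2 * A * r) * S * (D / X) ^ A *
            ((1 + |u|) ^ (2 * A * r) * G) := by
          rw [div_pow]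
          ring
      _ ≤ C ^ r * (1 + T) ^ (2 * A * r) * S * (D / X) ^ A *
            (Real.exp ((A : ℝ) ^ 2 + (((2 * A * r : ℕ) : ℝ) + 1) ^ 2) *
            Real.exp (-(1 * |u|))) := mul_le_mul_of_nonneg_left h10 (by positivity)
      _ = _ := by
          rw [hB]
          ring
  rw [hdiff, norm_neg, norm_mul, Complex.norm_real, Real.norm_of_nonneg (by positivity)]
  rw [integral_const_mul] at hJb
  rw [← hDdef]
  calc 1 / (2 * Real.pi) * ‖J₂‖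
      ≤ 1 / (2 * Real.pi) * (B * (D / X) ^ A * ∫ t : ℝ, Real.exp (-(1 * |t|))) :=
        mul_le_mul_of_nonneg_left hJb (by positivity)
    _ = _ := by ring

end Pool.Agent.H16.SM
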