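import Pool.Agent.H84.SM.Targets
import Pool.Agent.H84.SM.Targets2

/-!
# CRE and AFE: the equation of a connection in other coordinates
-/

set_option autoImplicit false

namespace Pool.Agent.H16.SM

open MvPolynomial SC Pool.Agent.H27.LV Pool.Agent.H84.SM

theorem xa_eq {k : Type} [Field k] (A : MvPolynomial (Fin 3) k) :
    (aeval xa A : A2 k) = rename Sum.inl A := by
  have h : (aeval xa : MvPolynomial (Fin 3) k →ₐ[k] A2 k) = rename Sum.inl := by
    refine MvPolynomial.algHom_ext fun i => ?_
    simp [xa]
  rw [h]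

theorem bh_xa {k : Type} [Field k] {α : ℕ} {A : MvPolynomial (Fin 3) k} (hA : A.IsHomogeneous α) :
    BH α 0 (aeval xa A : A2 k) := by
  constructor
  · intro m hm
    rw [xa_eq] at hm
    obtain ⟨u, rfl, hu⟩ := coeff_rename_ne_zero _ _ _ hm
    have h := hA hu
    unfold Finsupp.weight at h ⊢
    simp only [LinearMap.toAddMonoidHom_coe] at h ⊢
    rw [Finsupp.linearCombination_mapDomain]
    exact h
  · intro m hm
    rw [xa_eq] at hm
    obtain ⟨u, rfl, hu⟩ := coeff_rename_ne_zero _ _ _ hm
    unfold Finsupp.weight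
    simp only [LinearMap.toAddMonoidHom_coe]
    rw [Finsupp.linearCombination_mapDomain, Finsupp.linearCombination_apply]
    refine Finset.sum_eq_zero fun i _ => ?_
    show u i • (0 : ℕ) = 0
    rw [smul_zero]

theorem dv_xa {k : Type} [Field k] (A : MvPolynomial (Fin 3) k) : dv (aeval xa A : A2 k) = 0 := by
  induction A using MvPolynomial.induction_on with
  | C a => rw [algHom_C, Derivation.map_algebraMap]
  | add p q hp hq => rw [map_add, map_add, hp, hq, add_zero]
  | mul_X p i hp =>
    rw [map_mul, aeval_X, Derivation.leibniz, hp, smul_zero, add_zero]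
    unfold xa dv
    rw [mkDerivation_X]
    simp

/-- the polynomial `A w + b` -/
noncomputable def NN {k : Type} [Field k] (A : MvPolynomial (Fin 3) k) (b : A2 k) : R2 k :=
  Polynomial.C (aeval xa A) * Polynomial.X + Polynomial.C b

theorem nn_coeff {k : Type} [Field k] (A : MvPolynomial (Fin 3) k) (b : A2 k) (j : ℕ) :
    (NN A b).coeff j = if j = 0 then b else if j = 1 then aeval xa A else 0 := by
  unfold NN
  rw [Polynomial.coeff_add, Polynomial.coeff_C]
  rcases j with _ | _ | j
  · simp
  · simp
  · rw [Polynomial.coeff_C_mul, Polynomial.coeff_X_of_ne_one (by omega)]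
    simp

theorem nn_inv {k : Type} [Field k] (A : MvPolynomial (Fin 3) k) (b : A2 k) (hb : dv b = 0) :
    Inv (NN A b) := by
  intro j
  rw [nn_coeff]
  split_ifs
  · exact hb
  · exact dv_xa A
  · exact map_zero _

theorem nn_bhn {k : Type} [Field k] {α : ℕ} {A : MvPolynomial (Fin 3) k} {b : A2 k}
    (hA : A.IsHomogeneous α) (hb : BH α 3 b) : BHN α 3 (NN A b) := by
  intro j
  rw [nn_coeff]
  rcases j with _ | _ | j
  · exact ⟨fun _ => hb, fun h => absurd h (by omega)⟩
  · refine ⟨fun _ => ?_, fun h => absurd h (by omega)⟩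
    rw [if_neg (by omega), if_pos rfl]
    exact bh_xa hA
  · refine ⟨fun h => absurd h (by omega), fun _ => ?_⟩
    rw [if_neg (by omega), if_neg (by omega)]

theorem aeval_xa {k L : Type} [Field k] [CommRing L] [Algebra k L] (x y : Fin 3 → L)
    (A : MvPolynomial (Fin 3) k) :
    aeval (Sum.elim x y) (aeval xa A : A2 k) = aeval x A := by
  have h : ((aeval (Sum.elim x y) : A2 k →ₐ[k] L).comp (aeval xa)) = aeval x := by
    refine MvPolynomial.algHom_ext fun i => ?_
    simp [xa]
  exact DFunLike.congr_fun h A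

theorem ev_nn {k L : Type} [Field k] [CommRing L] [Algebra k L] (A : MvPolynomial (Fin 3) k)
    (b : A2 k) (x y : Fin 3 → L) (w : L) :
    ev x y w (NN A b) = aeval x A * w + aeval (Sum.elim x y) b := by
  unfold ev NN
  rw [Polynomial.coe_eval₂RingHom, Polynomial.eval₂_add, Polynomial.eval₂_mul,
    Polynomial.eval₂_C, Polynomial.eval₂_C, Polynomial.eval₂_X]
  show aeval (Sum.elim x y) (aeval xa A : A2 k) * w + aeval (Sum.elim x y) b = _
  rw [aeval_xa]

theorem pf_CRE (hSCL : T_SCL) : T_CRE := by
  intro k L _ _ _ _ D α A b x c μ hA hb hd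
  have h1 := hSCL k α 3 (NN A b) (nn_inv A b hd) (nn_bhn hA hb) L x (fun i => D (x i))
    (dt x (fun i => D (x i)) (fun i => D (D (x i)))) c μ (μ * D c)
  rw [ev_nn, ev_nn] at h1
  have h2 : (fun i => c * μ * D (x i) + μ * D c * x i) = fun i => (μ • D) (c * x i) := by
    funext i
    rw [Derivation.smul_apply, Derivation.leibniz, smul_eq_mul, smul_eq_mul, smul_eq_mul]
    ring
  have h3 : dt (fun i => c * x i) (fun i => (μ • D) (c * x i))
      (fun i => (μ • D) ((μ • D) (c * x i))) =
      c ^ 3 * μ ^ 3 * dt x (fun i => D (x i)) (fun i => D (D (x i))) := by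
    have e1 : ∀ i, (μ • D) (c * x i) = c * μ * D (x i) + μ * D c * x i := fun i =>
      (congrFun h2 i).symm
    have e2 : ∀ i, (μ • D) ((μ • D) (c * x i)) = c * μ ^ 2 * D (D (x i)) +
        (μ * D (c * μ) + μ * (μ * D c)) * D (x i) + μ * D (μ * D c) * x i := by
      intro i
      rw [e1, Derivation.smul_apply, map_add, Derivation.leibniz, Derivation.leibniz D (μ * D c)]
      simp only [smul_eq_mul]
      ring
    rw [show (fun i => (μ • D) ((μ • D) (c * x i))) = fun i => c * μ ^ 2 * D (D (x i)) +
        (μ * D (c * μ) + μ * (μ * D c)) * D (x i) + μ * D (μ * D c) * x i from funext e2, ← h2]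
    unfold dt dp cr
    simp only [Fin.sum_univ_three, Fin.isValue, zero_add, Fin.reduceAdd]
    ring
  rw [h3, ← h2]
  exact h1

theorem dt_const {k L : Type} [Field k] [CommRing L] [Algebra k L] (u0 u1 u2 : Fin 3 → k) :
    dt (fun i => algebraMap k L (u0 i)) (fun i => algebraMap k L (u1 i))
      (fun i => algebraMap k L (u2 i)) = algebraMap k L (dt u0 u1 u2) := by
  unfold dt dp cr
  simp only [map_sum, map_mul, map_sub]

theorem pf_AFE (hSCL : T_SCL) : T_AFE := by
  intro k L _ _ _ _ D α A b u0 u1 u2 x c X' Y hA hb hd hc hX hDX hx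
  set xh : Fin 3 → L := pa u0 u1 u2 X' Y with hxh
  have hx' : x = fun i => c * xh i := funext hx
  have h1 := pf_CRE hSCL k L D α A b xh c 1 hA hb hd
  rw [one_smul, ← hx'] at h1
  have e0 : (fun i => D (c * xh i)) = fun i => D (x i) := by
    funext i; rw [hx i]
  have e0' : (fun i => D (D (c * xh i))) = fun i => D (D (x i)) := by
    funext i; rw [hx i]
  rw [e0, e0', one_pow, mul_one] at h1
  rw [h1, mul_assoc]
  congr 1
  -- derivatives of the affine point
  have d1 : ∀ i, D (xh i) = X' * algebraMap k L (u1 i) + D Y * algebraMap k L (u2 i) := by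
    intro i
    rw [hxh]
    unfold pa
    rw [map_add, map_add, Derivation.map_algebraMap, Derivation.leibniz, Derivation.leibniz,
      Derivation.map_algebraMap, Derivation.map_algebraMap, hDX]
    simp only [smul_eq_mul]
    ring
  have d2 : ∀ i, D (D (xh i)) = X' * algebraMap k L (u1 i) +
      D (D Y) * algebraMap k L (u2 i) := by
    intro i
    rw [d1, map_add, Derivation.leibniz, Derivation.leibniz,
      Derivation.map_algebraMap, Derivation.map_algebraMap, hDX]
    simp only [smul_eq_mul]
    ring
  have e1 : dt xh (fun i => D (xh i)) (fun i => D (D (xh i))) =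
      algebraMap k L (dt u0 u1 u2) * (X' * (D (D Y) - D Y)) := by
    rw [show (fun i => D (xh i)) = fun i => X' * algebraMap k L (u1 i) +
        D Y * algebraMap k L (u2 i) from funext d1,
      show (fun i => D (D (xh i))) = fun i => X' * algebraMap k L (u1 i) +
        D (D Y) * algebraMap k L (u2 i) from funext d2, ← dt_const, hxh]
    unfold pa dt dp cr
    simp only [Fin.sum_univ_three, Fin.isValue, zero_add, Fin.reduceAdd]
    ring
  -- values of the polynomials
  have e2 : aeval ![X', Y] (gU A u0 u1 u2) = aeval xh A := by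
    unfold gU
    have h : ((aeval ![X', Y] : MvPolynomial (Fin 2) k →ₐ[k] L).comp
        (aeval (pa u0 u1 u2 (X 0) (X 1)))) = aeval xh := by
      refine MvPolynomial.algHom_ext fun i => ?_
      rw [AlgHom.comp_apply, aeval_X, aeval_X, hxh]
      unfold pa
      simp
    exact DFunLike.congr_fun h A
  have e3 : aeval ![X', Y] (aU A u0 u1 u2) = algebraMap k L (dt u0 u1 u2) * aeval xh A := by
    unfold aU
    rw [map_mul, e2, algHom_C]
  have e4 : aeval ![X', Y, D Y / X'] (bU b u0 u1 u2) = aeval (Sum.elim xh fun i =>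
      algebraMap k L (u1 i) + algebraMap k L (u2 i) * (D Y / X')) b := by
    unfold bU
    have h : ((aeval ![X', Y, D Y / X'] : MvPolynomial (Fin 3) k →ₐ[k] L).comp
        (aeval (Sum.elim (pa u0 u1 u2 (X 0) (X 1) : Fin 3 → MvPolynomial (Fin 3) k)
          (fun i => C (u1 i) + C (u2 i) * X 2)))) = aeval (Sum.elim xh fun i =>
      algebraMap k L (u1 i) + algebraMap k L (u2 i) * (D Y / X')) := by
      refine MvPolynomial.algHom_ext fun i => ?_
      rcases i with i | i
      · rw [AlgHom.comp_apply, aeval_X, aeval_X, hxh]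
        simp only [Sum.elim_inl]
        unfold pa
        simp
      · rw [AlgHom.comp_apply, aeval_X, aeval_X]
        simp
    exact DFunLike.congr_fun h b
  have e5 : aeval (Sum.elim xh fun i => D (xh i)) b = X' ^ 3 * aeval (Sum.elim xh fun i =>
      algebraMap k L (u1 i) + algebraMap k L (u2 i) * (D Y / X')) b := by
    have h2 := hSCL k α 3 (NN 0 b) (nn_inv 0 b hd) (nn_bhn (isHomogeneous_zero _ _ _) hb) L xh
      (fun i => algebraMap k L (u1 i) + algebraMap k L (u2 i) * (D Y / X')) 0 1 X' 0
    rw [ev_nn, ev_nn] at h2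
    simp only [map_zero, zero_mul, zero_add, one_mul, one_pow, add_zero] at h2
    rw [← h2]
    have e6 : (fun i => D (xh i)) = fun i => X' * (algebraMap k L (u1 i) +
        algebraMap k L (u2 i) * (D Y / X')) := by
      funext i
      rw [d1]
      field_simp
    rw [e6]
  rw [e1, e3, e4, e5]
  field_simp

end Pool.Agent.H16.SM
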