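import Pool.Agent.H16.SM.FMOtb
import Pool.Agent.H37.CV.All

/-!
# Row FMOt of the board sm: the first moment opened, at every height
-/

set_option autoImplicit false

namespace Pool.Agent.H16.SM

open Pool.Agent.H20.SM Pool.Agent.H37.CV

theorem pf_FMOt : T_FMOt := fmot_of a_OR a_WV a_DV

end Pool.Agent.H16.SM
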