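import Pool.Agent.H20.SM.TT
import Pool.Agent.H69.CV.FMO

/-!
# Row FMOt of the board sm: the first moment opened, at every height
(conditional form)
-/

set_option autoImplicit false
set_option maxHeartbeats 400000

open NumberField NumberField.InfinitePlace Complex Filter Topology

namespace Pool.Agent.H16.SM

open Pool.Agent.H20.SM Pool.Agent.H37.CV Pool.Agent.H28.RC Pool.Agent.H25.HK
open Pool.Agent.H65.CRZ
open Pool.Agent.H65.CRG hiding ks
open Pool.Agent.H59.CV (one_le_nm NB summable_nm3 ww idS_ne idS_sup nS_pos sup_mul of_sup_mul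
  mul_ne)
open Pool.Agent.H69.CV (nm_idS fa summable_fa ks lam_eq NN NN_ne summable_ks norm_psi_le
  inner1)

section

variable {K : Type} [Field K] [NumberField K]

theorem fm_norm_cpow {x : ℝ} (hx : 0 < x) (t : ℝ) :
    ‖(x : ℂ) ^ (-(1 / 2 + t * I))‖ = x ^ (-(1 / 2) : ℝ) := by
  rw [Complex.norm_cpow_eq_rpow_re_of_pos hx]
  congr 1
  simp

/-- the terms of the first sum -/
noncomputable def fat (X t : ℝ) (a : NI K) : ℂ :=
  ((nm a.1 : ℝ) : ℂ) ^ (-(1 / 2 + t * I)) * wf (nm a.1 / X)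

theorem norm_fat (X t : ℝ) (a : NI K) : ‖fat X t a‖ = ‖fa X a‖ := by
  have h1 := one_le_nm a.2
  unfold fat fa
  rw [norm_mul, norm_mul, fm_norm_cpow (by linarith), Complex.norm_real,
    Real.norm_of_nonneg (Real.rpow_nonneg (by linarith) _)]

open scoped Classical in
/-- the terms of the sum of `lam` -/
noncomputable def kst (X M t : ℝ) (S : Finset (PrI K)) (n : Ideal (𝓞 K)) : ℂ :=
  if idS S ∣ n then (xw K M S : ℂ) * (((nm n : ℝ) : ℂ) ^ (-(1 / 2 + t * I)) *
    wf (nm n / (nS np S * X))) else 0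

theorem norm_kst (X M t : ℝ) (S : Finset (PrI K)) (n : Ideal (𝓞 K)) (hn : n ≠ ⊥) :
    ‖kst X M t S n‖ = ‖ks X M S n‖ := by
  have h1 := one_le_nm hn
  unfold kst ks
  split_ifs with hd
  · rw [norm_mul, norm_mul, norm_mul, norm_mul, fm_norm_cpow (by linarith), Complex.norm_real,
      Complex.norm_real, Real.norm_of_nonneg (Real.rpow_nonneg (by linarith) _)]
  · rfl

theorem lam_eqt (X M t : ℝ) (n : Ideal (𝓞 K)) :
    lam X M n * ((nm n : ℝ) : ℂ) ^ (-(1 / 2 + t * I)) = ∑ S ∈ DM K M, kst X M t S n := by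
  classical
  unfold lam
  rw [Finset.sum_filter, Finset.sum_mul]
  refine Finset.sum_congr rfl fun S _ => ?_
  unfold kst
  split_ifs with h
  · ring
  · rw [zero_mul]

theorem open1t {m : Ideal (𝓞 K)} {ψ : Ideal (𝓞 K) → ℂ} (h : PC m ψ) (X M t : ℝ) :
    A1t X t ψ * pol M (cu K M t) ψ =
      ∑ S ∈ DM K M, cu K M t S * ∑' a : NI K, fat X t a * ψ (a.1 * idS S) := by
  unfold pol
  rw [Finset.mul_sum]
  refine Finset.sum_congr rfl fun S _ => ?_
  have h1 : A1t X t ψ * ψ (idS S) = ∑' a : NI K, fat X t a * ψ (a.1 * idS S) := by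
    unfold A1t
    rw [← tsum_mul_right]
    refine tsum_congr fun a => ?_
    unfold fat
    rw [h.mul]
    ring
  rw [← h1]
  ring

/-- the two sums for a fixed `S` are the same -/
theorem samet (X M t : ℝ) (m d : Ideal (𝓞 K)) (S : Finset (PrI K)) (c : ℂ) :
    cu K M t S * ∑' a : NI K,
      Set.indicator {a : NI K | (a.1 * idS S, (⊤ : Ideal (𝓞 K))) ∈ CP m d}
      (fun a => c * fat X t a) a = c * ∑' n : NN m d, kst X M t S n.1 := by
  classical
  obtain ⟨A, hA⟩ : ∃ A : Set (NI K),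
      A = {a : NI K | (a.1 * idS S, (⊤ : Ideal (𝓞 K))) ∈ CP m d} := ⟨_, rfl⟩
  rw [← hA]
  have hmem : ∀ a : A, (a.1.1 * idS S, (⊤ : Ideal (𝓞 K))) ∈ CP m d := by
    intro a
    have h : (a : NI K) ∈ A := a.2
    exact (Set.ext_iff.1 hA a.1).1 h
  have hS0 := idS_ne S
  have hSp := nS_pos S
  -- left
  have h1 : ∑' a : NI K, Set.indicator A (fun a => c * fat X t a) a =
      ∑' a : A, c * fat X t a.1 := by
    rw [← tsum_subtype]
  -- right
  let j : A → NN m d := fun a => ⟨a.1.1 * idS S, hmem a⟩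
  have hj : Function.Injective j := by
    intro a b hab
    have h2 : a.1.1 * idS S = b.1.1 * idS S := congrArg Subtype.val hab
    exact Subtype.ext (Subtype.ext (mul_right_cancel₀ hS0 h2))
  have h3 : ∑' n : NN m d, kst X M t S n.1 = ∑' a : A, kst X M t S (j a).1 := by
    refine (hj.tsum_eq (f := fun n : NN m d => kst X M t S n.1) ?_).symm
    intro n hn
    rw [Function.mem_support] at hn
    have hd : idS S ∣ n.1 := by
      by_contra hcon
      apply hn
      unfold kst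
      rw [if_neg hcon]
    obtain ⟨b, hb⟩ := hd
    have hb0 : b ≠ ⊥ := by
      rintro rfl
      rw [Ideal.mul_bot] at hb
      exact NN_ne n hb
    have hb' : b * idS S = n.1 := by rw [hb, mul_comm]
    have hbA : (⟨b, hb0⟩ : NI K) ∈ A := by
      refine (Set.ext_iff.1 hA _).2 ?_
      show (b * idS S, (⊤ : Ideal (𝓞 K))) ∈ CP m d
      rw [hb']
      exact n.2
    exact ⟨⟨⟨b, hb0⟩, hbA⟩, Subtype.ext hb'⟩
  rw [h1, h3, ← tsum_mul_left, ← tsum_mul_left]
  refine tsum_congr fun a => ?_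
  show cu K M t S * (c * fat X t a.1) = c * kst X M t S (a.1.1 * idS S)
  have ha := one_le_nm a.1.2
  have ha0 : 0 < nm a.1.1 := by linarith
  unfold kst
  rw [if_pos (dvd_mul_left _ _), Pool.Agent.H59.CV.nm_mul, nm_idS]
  have e1 : nm a.1.1 * nS np S / (nS np S * X) = nm a.1.1 / X := by
    field_simp
  rw [e1, Complex.ofReal_mul, Complex.mul_cpow_ofReal_nonneg ha0.le hSp.le]
  unfold cu fat
  ring

end

theorem fmot_of (hOR : T_OR) (hWV : T_WV) (hDV : T_DV) : T_FMOt := by
  classical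
  intro K _ _ _ m d X M t hm hmd hX hM
  obtain ⟨C, hC⟩ := (hDV K).2
  have hNB : NB K C := hC
  obtain ⟨hfin, hnc, hor⟩ := hOR K m d hm hmd
  have hsk : ∀ S ∈ DM K M, Summable (fun n : NN m d => ‖ks X M S n.1‖) :=
    fun S _ => summable_ks hWV hNB hX M S m d
  have hskt : ∀ S ∈ DM K M, Summable (fun n : NN m d => ‖kst X M t S n.1‖) := by
    intro S hS
    refine (hsk S hS).congr fun n => ?_
    rw [norm_kst X M t S n.1 (NN_ne n)]
  refine ⟨?_, ?_⟩
  · refine (summable_sum hsk).of_nonneg_of_le (fun n => ?_) fun n => ?_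
    · have := one_le_nm (NN_ne n)
      positivity
    · have h1 : ‖lam X M n.1‖ * nm n.1 ^ (-(1 / 2) : ℝ) =
          ‖lam X M n.1 * ((nm n.1 ^ (-(1 / 2) : ℝ) : ℝ) : ℂ)‖ := by
        have := one_le_nm (NN_ne n)
        rw [norm_mul, Complex.norm_real, Real.norm_of_nonneg (Real.rpow_nonneg (by linarith) _)]
      rw [h1, lam_eq]
      exact norm_sum_le _ _
  · have hpc : ∀ ψ ∈ hfin.toFinset, PC m ψ := fun ψ hψ => (hfin.mem_toFinset.1 hψ).1
    have hR : ∑' n : NN m d, lam X M n.1 * ((nm n.1 : ℝ) : ℂ) ^ (-(1 / 2 + t * I)) =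
        ∑ S ∈ DM K M, ∑' n : NN m d, kst X M t S n.1 := by
      rw [tsum_congr fun n : NN m d => lam_eqt X M t n.1]
      exact Summable.tsum_finsetSum fun S hS => (hskt S hS).of_norm
    rw [hR, finsum_mem_eq_finite_toFinset_sum _ hfin]
    rw [Finset.sum_congr rfl fun ψ hψ => open1t (hpc ψ hψ) X M t, Finset.sum_comm,
      Finset.mul_sum]
    refine Finset.sum_congr rfl fun S hS => ?_
    rw [← samet X M t m d S (nc m d : ℂ), ← Finset.mul_sum]
    congr 1
    have hsum : ∀ ψ ∈ hfin.toFinset,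
        Summable (fun a : NI K => fat X t a * ψ (a.1 * idS S)) := by
      intro ψ hψ
      refine Summable.of_norm ((summable_fa hWV hNB hX).of_nonneg_of_le
        (fun _ => norm_nonneg _) fun a => ?_)
      rw [norm_mul, norm_fat]
      calc ‖fa X a‖ * ‖ψ (a.1 * idS S)‖ ≤ ‖fa X a‖ * 1 :=
            mul_le_mul_of_nonneg_left (norm_psi_le (hpc ψ hψ) _) (norm_nonneg _)
        _ = _ := mul_one _
    rw [← Summable.tsum_finsetSum hsum]
    refine tsum_congr fun a => ?_
    rw [← Finset.mul_sum]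
    have h1 := inner1 hfin hor (a.1 * idS S) (mul_ne a.2 (idS_ne S))
    by_cases ha : (a.1 * idS S, (⊤ : Ideal (𝓞 K))) ∈ CP m d
    · rw [h1.1 ha, Set.indicator_of_mem (by exact ha)]
      ring
    · rw [h1.2 ha, Set.indicator_of_notMem (by exact ha), mul_zero]

end Pool.Agent.H16.SM
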